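import Pool.Graph.R_pool_sql_team_seeded_b0a926ef.R988.NQ.Fix

/-! # Multiplication by characters of the lattice: averages, stationarity -/

set_option autoImplicit false

open MeasureTheory Filter Topology
open scoped BigOperators ENNReal NNReal InnerProductSpace ComplexConjugate

namespace Pool.Agent.H39.AC

open Pool.Agent.H5R2.NB Pool.Agent.H5R2.NBA Pool.Agent.R988.NQ

variable {d : ℕ}

/-- unitary characters of the lattice -/
structure Chr (χ : Site d → ℂ) : Prop where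
  mul : ∀ x y, χ (x + y) = χ x * χ y
  nrm : ∀ x, ‖χ x‖ = 1

theorem Chr.ne {χ : Site d → ℂ} (h : Chr χ) (x : Site d) : χ x ≠ 0 := by
  intro h0
  have := h.nrm x
  rw [h0, norm_zero] at this
  exact zero_ne_one this

theorem Chr.zero {χ : Site d → ℂ} (h : Chr χ) : χ 0 = 1 := by
  have h1 := h.mul 0 0
  rw [add_zero] at h1
  have h2 := h.ne 0
  have h3 : χ 0 * 1 = χ 0 * χ 0 := by rw [mul_one]; exact h1
  exact (mul_left_cancel₀ h2 h3).symm

theorem Chr.conj_mul {χ : Site d → ℂ} (h : Chr χ) (x : Site d) : conj (χ x) * χ x = 1 := by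
  rw [mul_comm, Complex.mul_conj, Complex.normSq_eq_norm_sq, h.nrm]
  simp

theorem Chr.neg {χ : Site d → ℂ} (h : Chr χ) (x : Site d) : χ (-x) = conj (χ x) := by
  have h1 : χ (-x) * χ x = 1 := by rw [← h.mul, neg_add_cancel, h.zero]
  have h2 := h.conj_mul x
  exact mul_right_cancel₀ (h.ne x) (h1.trans h2.symm)

theorem Chr.conj {χ : Site d → ℂ} (h : Chr χ) : Chr (fun x => conj (χ x)) :=
  ⟨fun x y => by simp only [h.mul, map_mul], fun x => by simp only [RCLike.norm_conj, h.nrm]⟩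

/-- multiplication by a bounded function -/
noncomputable def cmul (m : Site d → ℂ) (hm : ∀ x, ‖m x‖ = 1) : L2 (Site d) →L[ℂ] L2 (Site d) :=
  LinearMap.mkContinuous
    { toFun := fun ψ => ⟨fun x => m x * ψ x,
        Memℓp.mono' (lp.memℓp ψ) (fun x => by rw [norm_mul, hm, one_mul])⟩
      map_add' := by
        intro φ ψ
        ext x
        show m x * (φ x + ψ x) = m x * φ x + m x * ψ x
        ring
      map_smul' := by
        intro r ψ
        ext x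
        show m x * (r * ψ x) = r * (m x * ψ x)
        ring } 1 (by
    intro ψ
    rw [one_mul]
    refine lp.norm_mono (by norm_num) fun x => ?_
    show ‖m x * ψ x‖ ≤ ‖ψ x‖
    rw [norm_mul, hm, one_mul])

theorem cmul_apply (m : Site d → ℂ) (hm : ∀ x, ‖m x‖ = 1) (ψ : L2 (Site d)) (x : Site d) :
    (cmul m hm ψ) x = m x * ψ x := rfl

theorem cmul_adj (m : Site d → ℂ) (hm : ∀ x, ‖m x‖ = 1) (hm' : ∀ x, ‖conj (m x)‖ = 1)
    (f g : L2 (Site d)) :
    ⟪cmul m hm f, g⟫_ℂ = ⟪f, cmul (fun x => conj (m x)) hm' g⟫_ℂ := by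
  rw [lp.inner_eq_tsum, lp.inner_eq_tsum]
  refine tsum_congr fun x => ?_
  rw [cmul_apply, cmul_apply, RCLike.inner_apply, RCLike.inner_apply, map_mul]
  ring

theorem conj_nrm {m : Site d → ℂ} (hm : ∀ x, ‖m x‖ = 1) : ∀ x, ‖conj (m x)‖ = 1 := fun x => by
  rw [RCLike.norm_conj, hm]

theorem cmul_inv (m : Site d → ℂ) (hm : ∀ x, ‖m x‖ = 1) (f : L2 (Site d)) :
    cmul (fun x => conj (m x)) (conj_nrm hm) (cmul m hm f) = f := by
  ext x
  rw [cmul_apply, cmul_apply, ← mul_assoc, mul_comm (conj (m x)), Complex.mul_conj,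
    Complex.normSq_eq_norm_sq, hm]
  simp

theorem cmul_inv' (m : Site d → ℂ) (hm : ∀ x, ‖m x‖ = 1) (f : L2 (Site d)) :
    cmul m hm (cmul (fun x => conj (m x)) (conj_nrm hm) f) = f := by
  ext x
  rw [cmul_apply, cmul_apply, ← mul_assoc, Complex.mul_conj,
    Complex.normSq_eq_norm_sq, hm]
  simp

theorem cmul_norm (m : Site d → ℂ) (hm : ∀ x, ‖m x‖ = 1) (f : L2 (Site d)) :
    ‖cmul m hm f‖ = ‖f‖ := by
  have h : ⟪cmul m hm f, cmul m hm f⟫_ℂ = ⟪f, f⟫_ℂ := by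
    rw [cmul_adj m hm (conj_nrm hm), cmul_inv]
  rw [inner_self_eq_norm_sq_to_K, inner_self_eq_norm_sq_to_K] at h
  have h2 : ‖cmul m hm f‖ ^ 2 = ‖f‖ ^ 2 := by exact_mod_cast h
  exact (sq_eq_sq₀ (norm_nonneg _) (norm_nonneg _)).1 h2

/-- covariance up to a phase -/
theorem cmul_shift {χ : Site d → ℂ} (h : Chr χ) {z : Site d}
    {S : L2 (Site d) →L[ℂ] L2 (Site d)} (hS : IsShift z S) (f : L2 (Site d)) :
    cmul χ h.nrm (S f) = χ (-z) • S (cmul χ h.nrm f) := by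
  ext x
  have e : (χ (-z) • S (cmul χ h.nrm f)) x = χ (-z) * (S (cmul χ h.nrm f)) x := rfl
  rw [e, cmul_apply, hS, hS, cmul_apply, ← mul_assoc, ← h.mul]
  congr 2
  abel

section stat

variable {c : ℝ} {ev : (Site d → ℝ) → UG (L2 (Site d))}
variable {χ : Site d → ℂ}

/-- the multiplication at time `s` -/
noncomputable def XX (ev : (Site d → ℝ) → UG (L2 (Site d))) (χ : Site d → ℂ) (hχ : ∀ x, ‖χ x‖ = 1)
    (s : ℝ) : OF d := fun V => ((ev V).U (-s)).comp ((cmul χ hχ).comp ((ev V).U s))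

theorem XX_apply (hχ : ∀ x, ‖χ x‖ = 1) (s : ℝ) (V : Site d → ℝ) (ψ : L2 (Site d)) :
    XX ev χ hχ s V ψ = (ev V).U (-s) (cmul χ hχ ((ev V).U s ψ)) := rfl

theorem XX_cov (hev : ∀ V, IsGrp c V (ev V)) (h : Chr χ) (s : ℝ) {z : Site d}
    {S : L2 (Site d) →L[ℂ] L2 (Site d)} (hS : IsShift z S) (V : Site d → ℝ) (ψ : L2 (Site d)) :
    XX ev χ h.nrm s (fun y => V (y + z)) (S ψ) = χ (-z) • S (XX ev χ h.nrm s V ψ) := by
  have hC := ALL.a_COV d c ev hev z S hS V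
  rw [XX_apply, XX_apply, hC, cmul_shift h hS, map_smul, hC]

theorem XX_norm (hχ : ∀ x, ‖χ x‖ = 1) (s : ℝ) (V : Site d → ℝ) (ψ : L2 (Site d)) :
    ‖XX ev χ hχ s V ψ‖ = ‖ψ‖ := by
  rw [XX_apply, (ev V).norm', cmul_norm, (ev V).norm']

theorem XX_adj (hχ : ∀ x, ‖χ x‖ = 1) (s : ℝ) (V : Site d → ℝ) (f g : L2 (Site d)) :
    ⟪XX ev χ hχ s V f, g⟫_ℂ = ⟪f, XX ev (fun x => conj (χ x)) (conj_nrm hχ) s V g⟫_ℂ := by
  rw [XX_apply, XX_apply]
  have e1 : ∀ (t : ℝ) (x y : L2 (Site d)), ⟪(ev V).U t x, y⟫_ℂ = ⟪x, (ev V).U (-t) y⟫_ℂ := by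
    intro t x y
    have := STAT.inner_adj (ev V) (-t) x y
    rw [neg_neg] at this
    exact this.symm
  rw [e1, cmul_adj χ hχ (conj_nrm hχ), neg_neg, e1]

theorem XX_sm (hev : ∀ V, IsGrp c V (ev V)) (hχ : ∀ x, ‖χ x‖ = 1) (s : ℝ)
    (f : (Site d → ℝ) → L2 (Site d)) (hf : StronglyMeasurable f) :
    StronglyMeasurable fun V => XX ev χ hχ s V (f V) := by
  have h1 := sm_U hev s f hf
  have h2 : StronglyMeasurable fun V => cmul χ hχ ((ev V).U s (f V)) :=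
    (cmul χ hχ).continuous.comp_stronglyMeasurable h1
  exact sm_U hev (-s) _ h2

/-- the covariant product of two twisted fields -/
noncomputable def YY (ev : (Site d → ℝ) → UG (L2 (Site d))) (χ : Site d → ℂ) (hχ : ∀ x, ‖χ x‖ = 1)
    (s s' : ℝ) : OF d := mulF (XX ev (fun x => conj (χ x)) (conj_nrm hχ) s) (XX ev χ hχ s')

theorem fld_YY (hev : ∀ V, IsGrp c V (ev V)) (h : Chr χ) (s s' : ℝ) :
    Fld 1 (YY ev χ h.nrm s s') := by
  refine ⟨fun V ψ => ?_, fun f hf => ?_, fun z S hS V ψ => ?_⟩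
  · unfold YY
    rw [mulF_apply, XX_norm, XX_norm, one_mul]
  · exact XX_sm hev _ s _ (XX_sm hev _ s' f hf)
  · unfold YY
    rw [mulF_apply, mulF_apply, XX_cov hev h s' hS, map_smul, XX_cov hev h.conj s hS, smul_smul]
    have e : χ (-z) * conj (χ (-z)) = 1 := by
      rw [mul_comm]; exact h.conj_mul _
    rw [e, one_smul]

theorem adj_YY (hχ : ∀ x, ‖χ x‖ = 1) (s s' : ℝ) :
    Adj (YY ev χ hχ s s') (YY ev χ hχ s' s) := by
  intro V f g
  unfold YY
  rw [mulF_apply, mulF_apply]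
  have h1 := XX_adj (ev := ev) (conj_nrm hχ) s V (XX ev χ hχ s' V f) g
  have e : XX ev (fun x => conj (conj (χ x))) (conj_nrm (conj_nrm hχ)) s V g =
      XX ev χ hχ s V g := by
    have : (fun x => conj (conj (χ x))) = χ := by funext x; rw [Complex.conj_conj]
    simp only [XX_apply]
    congr 1
    ext y
    rw [cmul_apply, cmul_apply, Complex.conj_conj]
  rw [h1, e, XX_adj hχ s' V]

variable {ν : Measure ℝ} [IsProbabilityMeasure ν]

/-- stationarity -/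
theorem stat (hev : ∀ V, IsGrp c V (ev V)) (h : Chr χ) (ν : Measure ℝ) [IsProbabilityMeasure ν]
    (s s' a : ℝ) :
    ∫ V, ⟪XX ev χ h.nrm (s + a) V (dl 0), XX ev χ h.nrm (s' + a) V (dl 0)⟫_ℂ ∂(PP d ν) =
      ∫ V, ⟪XX ev χ h.nrm s V (dl 0), XX ev χ h.nrm s' V (dl 0)⟫_ℂ ∂(PP d ν) := by
  have ht := trace (ν := ν) (fld_U hev a) (fld_U hev (-a))
    ((fld_YY hev h s s').mul zero_le_one (fld_U hev a))
    ((fld_U hev (-a)).mul zero_le_one (fld_YY hev h s' s))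
    (adj_U a) ((adj_YY h.nrm s s').mul (adj_U a))
  have e1 : ∀ V, ⟪XX ev χ h.nrm (s + a) V (dl 0), XX ev χ h.nrm (s' + a) V (dl 0)⟫_ℂ =
      ⟪vec (Uf ev a) V, vec (mulF (YY ev χ h.nrm s s') (Uf ev a)) V⟫_ℂ := by
    intro V
    have a1 : ∀ t, XX ev χ h.nrm (t + a) V (dl 0) =
        (ev V).U (-a) (XX ev χ h.nrm t V ((ev V).U a (dl 0))) := by
      intro t
      rw [XX_apply, XX_apply, (ev V).add' t a, neg_add_rev, (ev V).add' (-a) (-t)]
    rw [a1, a1, STAT.inner_UG, XX_adj]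
    rfl
  have e2 : ∀ V, ⟪XX ev χ h.nrm s V (dl 0), XX ev χ h.nrm s' V (dl 0)⟫_ℂ =
      ⟪vec (mulF (Uf ev (-a)) (YY ev χ h.nrm s' s)) V, vec (Uf ev (-a)) V⟫_ℂ := by
    intro V
    show _ = ⟪(ev V).U (-a) (YY ev χ h.nrm s' s V (dl 0)), (ev V).U (-a) (dl 0)⟫_ℂ
    rw [STAT.inner_UG, adj_YY h.nrm s' s V]
    have := XX_adj (ev := ev) h.nrm s V (dl 0) (XX ev χ h.nrm s' V (dl 0))
    exact this
  simp_rw [e1, e2]
  exact ht

/-- mean square convergence of both averages at the origin -/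
theorem lima (hev : ∀ V, IsGrp c V (ev V)) (h : Chr χ) (ν : Measure ℝ) [IsProbabilityMeasure ν] :
    ∃ b : (Site d → ℝ) → L2 (Site d), AEStronglyMeasurable b (PP d ν) ∧
        Tendsto (fun N : ℕ => ∫⁻ V, ‖avP (ev V) (cmul χ h.nrm) N (dl 0) - b V‖ₑ ^ 2 ∂(PP d ν))
          atTop (𝓝 0) ∧
        Tendsto (fun N : ℕ => ∫⁻ V, ‖avM (ev V) (cmul χ h.nrm) N (dl 0) - b V‖ₑ ^ 2 ∂(PP d ν))
          atTop (𝓝 0) := by
  have hCV := ALL.a_CV d c ev hev
  have hT : Continuous fun p : ℝ × (Site d → ℝ) => XX ev χ h.nrm p.1 p.2 (dl 0) := by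
    have g1 : Continuous fun p : ℝ × (Site d → ℝ) => (ev p.2).U p.1 (dl 0) :=
      hCV.comp (by fun_prop :
        Continuous fun p : ℝ × (Site d → ℝ) => (p.2, p.1, (dl 0 : L2 (Site d))))
    have g2 : Continuous fun p : ℝ × (Site d → ℝ) => cmul χ h.nrm ((ev p.2).U p.1 (dl 0)) :=
      (cmul χ h.nrm).continuous.comp g1
    exact hCV.comp ((continuous_snd.prodMk (continuous_fst.neg.prodMk g2)) :
      Continuous fun p : ℝ × (Site d → ℝ) => (p.2, -p.1, cmul χ h.nrm ((ev p.2).U p.1 (dl 0))))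
  have hK : ∀ s V, ‖XX ev χ h.nrm s V (dl 0)‖ ≤ ‖(dl 0 : L2 (Site d))‖ := by
    intro s V
    rw [XX_norm]
  have hP : IsProbabilityMeasure (PP d ν) := by
    unfold PP
    infer_instance
  obtain ⟨b, hb, hf, hg⟩ := LIMA.main (PP d ν) (fun s V => XX ev χ h.nrm s V (dl 0)) _ t_ME hT hK
    (fun s s' a => stat hev h ν s s' a)
  refine ⟨b, hb, hf, ?_⟩
  unfold avM
  have e : ∀ (V : Site d → ℝ) (s : ℝ), XX ev χ h.nrm (-s) V (dl 0) =
      (ev V).U s (cmul χ h.nrm ((ev V).U (-s) (dl 0))) := by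
    intro V s
    rw [XX_apply, neg_neg]
  simp only [e] at hg
  exact hg

end stat

end Pool.Agent.H39.AC
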