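import Pool.Agent.H39.AC.Tw1

/-! # Averages of characters: convergence along subsequences -/

set_option autoImplicit false

open MeasureTheory Filter Topology
open scoped BigOperators ENNReal NNReal InnerProductSpace ComplexConjugate

namespace Pool.Agent.H39.AC

open Pool.Agent.H5R2.NB Pool.Agent.H5R2.NBA Pool.Agent.R988.NQ

variable {d : ℕ} {c : ℝ} {ev : (Site d → ℝ) → UG (L2 (Site d))} {z : Site d}
  {S T : L2 (Site d) →L[ℂ] L2 (Site d)} {χ : Site d → ℂ}

theorem avP_conj (hev : ∀ V, IsGrp c V (ev V)) (h : Chr χ) (hS : IsShift z S)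
    (hT : IsShift (-z) T) (V : Site d → ℝ) (N : ℕ) (x : L2 (Site d)) :
    avP (ev fun y => V (y + z)) (cmul χ h.nrm) N x =
      χ (-z) • S (avP (ev V) (cmul χ h.nrm) N (T x)) := by
  unfold avP
  have e := ContinuousLinearMap.intervalIntegral_comp_comm S
    ((LIMB.cont_P (ev V) (cmul χ h.nrm) (T x)).intervalIntegrable (μ := volume) (0 : ℝ) (N : ℝ))
  rw [map_smul, smul_comm]
  congr 1
  refine Eq.trans ?_ (congrArg (χ (-z) • ·) e)
  rw [← intervalIntegral.integral_smul]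
  refine intervalIntegral.integral_congr fun s _ => ?_
  have h1 := XX_cov hev h s hS V (T x)
  rw [ZAC.inv1 hS hT] at h1
  exact h1

theorem avM_conj (hev : ∀ V, IsGrp c V (ev V)) (h : Chr χ) (hS : IsShift z S)
    (hT : IsShift (-z) T) (V : Site d → ℝ) (N : ℕ) (x : L2 (Site d)) :
    avM (ev fun y => V (y + z)) (cmul χ h.nrm) N x =
      χ (-z) • S (avM (ev V) (cmul χ h.nrm) N (T x)) := by
  unfold avM
  have e := ContinuousLinearMap.intervalIntegral_comp_comm S
    ((LIMB.cont_M (ev V) (cmul χ h.nrm) (T x)).intervalIntegrable (μ := volume) (0 : ℝ) (N : ℝ))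
  rw [map_smul, smul_comm]
  congr 1
  refine Eq.trans ?_ (congrArg (χ (-z) • ·) e)
  rw [← intervalIntegral.integral_smul]
  refine intervalIntegral.integral_congr fun s _ => ?_
  have h1 := XX_cov hev h (-s) hS V (T x)
  rw [ZAC.inv1 hS hT, XX_apply, XX_apply, neg_neg] at h1
  exact h1

theorem good_conj (hev : ∀ V, IsGrp c V (ev V)) (h : Chr χ) (hS : IsShift z S)
    (hT : IsShift (-z) T) (V : Site d → ℝ) (Nk : ℕ → ℕ) (B : L2 (Site d) →L[ℂ] L2 (Site d))
    (hB : Good (ev V) (cmul χ h.nrm) Nk B) :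
    Good (ev fun y => V (y + z)) (cmul χ h.nrm) Nk (χ (-z) • ((S.comp B).comp T)) := by
  intro x
  obtain ⟨h1, h2⟩ := hB (T x)
  constructor
  · refine (((S.continuous.tendsto _).comp h1).const_smul (χ (-z))).congr fun k => ?_
    rw [avP_conj hev h hS hT]
    rfl
  · refine (((S.continuous.tendsto _).comp h2).const_smul (χ (-z))).congr fun k => ?_
    rw [avM_conj hev h hS hT]
    rfl

theorem cont_int (hev : ∀ V, IsGrp c V (ev V)) (v : L2 (Site d) →L[ℂ] L2 (Site d)) (T : ℝ) :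
    Continuous fun p : (Site d → ℝ) × L2 (Site d) =>
      ∫ s in (0 : ℝ)..T, (ev p.1).U (-s) (v ((ev p.1).U s p.2)) := by
  have h := ALL.a_CV d c ev hev
  have h1 : Continuous (fun p : ((Site d → ℝ) × L2 (Site d)) × ℝ =>
      (ev p.1.1).U p.2 p.1.2) :=
    h.comp (by fun_prop : Continuous fun p : ((Site d → ℝ) × L2 (Site d)) × ℝ =>
      ((p.1.1, p.2, p.1.2) : (Site d → ℝ) × ℝ × L2 (Site d)))
  have h2 : Continuous (fun p : ((Site d → ℝ) × L2 (Site d)) × ℝ =>
      (ev p.1.1).U (-p.2) (v ((ev p.1.1).U p.2 p.1.2))) :=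
    h.comp ((continuous_fst.comp continuous_fst).prodMk (continuous_snd.neg.prodMk
      (v.continuous.comp h1)))
  exact intervalIntegral.continuous_parametric_intervalIntegral_of_continuous'
    (f := fun (p : (Site d → ℝ) × L2 (Site d)) (s : ℝ) =>
      (ev p.1).U (-s) (v ((ev p.1).U s p.2))) h2 0 T

theorem cont_intM (hev : ∀ V, IsGrp c V (ev V)) (v : L2 (Site d) →L[ℂ] L2 (Site d)) (T : ℝ) :
    Continuous fun p : (Site d → ℝ) × L2 (Site d) =>
      ∫ s in (0 : ℝ)..T, (ev p.1).U s (v ((ev p.1).U (-s) p.2)) := by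
  have h := ALL.a_CV d c ev hev
  have h1 : Continuous (fun p : ((Site d → ℝ) × L2 (Site d)) × ℝ =>
      (ev p.1.1).U (-p.2) p.1.2) :=
    h.comp (by fun_prop : Continuous fun p : ((Site d → ℝ) × L2 (Site d)) × ℝ =>
      ((p.1.1, -p.2, p.1.2) : (Site d → ℝ) × ℝ × L2 (Site d)))
  have h2 : Continuous (fun p : ((Site d → ℝ) × L2 (Site d)) × ℝ =>
      (ev p.1.1).U p.2 (v ((ev p.1.1).U (-p.2) p.1.2))) :=
    h.comp ((continuous_fst.comp continuous_fst).prodMk (continuous_snd.prodMk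
      (v.continuous.comp h1)))
  exact intervalIntegral.continuous_parametric_intervalIntegral_of_continuous'
    (f := fun (p : (Site d → ℝ) × L2 (Site d)) (s : ℝ) =>
      (ev p.1).U s (v ((ev p.1).U (-s) p.2))) h2 0 T

theorem cont_avP (hev : ∀ V, IsGrp c V (ev V)) (v : L2 (Site d) →L[ℂ] L2 (Site d)) (N : ℕ) :
    Continuous fun V => avP (ev V) v N (dl 0) := by
  unfold avP
  have h := (cont_int hev v (N : ℝ)).comp
    ((continuous_id (X := Site d → ℝ)).prodMk (continuous_const (y := (dl 0 : L2 (Site d)))))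
  exact h.const_smul ((N : ℂ)⁻¹)

theorem cont_avM (hev : ∀ V, IsGrp c V (ev V)) (v : L2 (Site d) →L[ℂ] L2 (Site d)) (N : ℕ) :
    Continuous fun V => avM (ev V) v N (dl 0) := by
  unfold avM
  have h := (cont_intM hev v (N : ℝ)).comp
    ((continuous_id (X := Site d → ℝ)).prodMk (continuous_const (y := (dl 0 : L2 (Site d)))))
  exact h.const_smul ((N : ℂ)⁻¹)

theorem sm_avX (hev : ∀ V, IsGrp c V (ev V)) (v : L2 (Site d) →L[ℂ] L2 (Site d)) (m : ℕ)
    (f : (Site d → ℝ) → L2 (Site d)) (hf : StronglyMeasurable f) :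
    StronglyMeasurable fun V => avP (ev V) v m (f V) := by
  have h4 : StronglyMeasurable fun V =>
      ∫ s in (0 : ℝ)..(m : ℝ), (ev V).U (-s) (v ((ev V).U s (f V))) :=
    (cont_int hev v (m : ℝ)).comp_stronglyMeasurable (stronglyMeasurable_id.prodMk hf)
  exact h4.const_smul ((m : ℂ)⁻¹)

theorem sm_avMX (hev : ∀ V, IsGrp c V (ev V)) (v : L2 (Site d) →L[ℂ] L2 (Site d)) (m : ℕ)
    (f : (Site d → ℝ) → L2 (Site d)) (hf : StronglyMeasurable f) :
    StronglyMeasurable fun V => avM (ev V) v m (f V) := by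
  have h4 : StronglyMeasurable fun V =>
      ∫ s in (0 : ℝ)..(m : ℝ), (ev V).U s (v ((ev V).U (-s) (f V))) :=
    (cont_intM hev v (m : ℝ)).comp_stronglyMeasurable (stronglyMeasurable_id.prodMk hf)
  exact h4.const_smul ((m : ℂ)⁻¹)

open LIMB in
/-- subsequences: the averages converge strongly, almost surely; the limit at `δ_0` is `b` -/
theorem lim2 (hev : ∀ V, IsGrp c V (ev V)) (h : Chr χ) (ν : Measure ℝ) [IsProbabilityMeasure ν] :
    ∃ b : (Site d → ℝ) → L2 (Site d), AEStronglyMeasurable b (PP d ν) ∧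
      (Tendsto (fun N : ℕ => ∫⁻ V, ‖avP (ev V) (cmul χ h.nrm) N (dl 0) - b V‖ₑ ^ 2 ∂(PP d ν))
          atTop (𝓝 0)) ∧
      ∀ Mk : ℕ → ℕ, Tendsto Mk atTop atTop →
      ∃ a : ℕ → ℕ, StrictMono a ∧
        ∀ᵐ V ∂(PP d ν), ∃ B : L2 (Site d) →L[ℂ] L2 (Site d),
          Good (ev V) (cmul χ h.nrm) (Mk ∘ a) B ∧
          ∀ (z : Site d) (S : L2 (Site d) →L[ℂ] L2 (Site d)), IsShift (-z) S →
            B (dl z) = χ z • S (b fun y => V (y + z)) := by
  have h3 : St_RES := t_RES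
  have h5 : St_OPS := t_OPS
  obtain ⟨b, hb, hP0, hM0⟩ := lima hev h ν
  refine ⟨b, hb, hP0, fun Mk hMt => ?_⟩
  have hP := hP0.comp hMt
  have hM := hM0.comp hMt
  set v := cmul χ h.nrm with hv
  have hfP : ∀ N, AEMeasurable (fun V => ‖avP (ev V) v N (dl 0) - b V‖ₑ ^ 2) (PP d ν) :=
    fun N => (((cont_avP hev v N).aestronglyMeasurable).sub hb).enorm.pow_const 2
  have hfM : ∀ N, AEMeasurable (fun V => ‖avM (ev V) v N (dl 0) - b V‖ₑ ^ 2) (PP d ν) :=
    fun N => (((cont_avM hev v N).aestronglyMeasurable).sub hb).enorm.pow_const 2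
  have hPM := hP.add hM
  rw [add_zero] at hPM
  obtain ⟨a, hmono, hNk⟩ := extraction_forall_of_eventually
    (P := fun n k => (∫⁻ V, ‖avP (ev V) v (Mk k) (dl 0) - b V‖ₑ ^ 2 ∂(PP d ν)) +
      (∫⁻ V, ‖avM (ev V) v (Mk k) (dl 0) - b V‖ₑ ^ 2 ∂(PP d ν)) < (2⁻¹ : ℝ≥0∞) ^ n)
    (fun n => (tendsto_order.1 hPM).2 _ (by
      refine ENNReal.pow_pos ?_ n
      simp))
  refine ⟨a, hmono, ?_⟩
  set Nk : ℕ → ℕ := Mk ∘ a with hNkdef
  -- almost sure convergence at the origin
  have hfS : ∀ n, AEMeasurable (fun V => ‖avP (ev V) v (Nk n) (dl 0) - b V‖ₑ ^ 2 +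
      ‖avM (ev V) v (Nk n) (dl 0) - b V‖ₑ ^ 2) (PP d ν) := fun n =>
    (hfP (Nk n)).add (hfM (Nk n))
  have hsum : ∫⁻ V, ∑' n, (‖avP (ev V) v (Nk n) (dl 0) - b V‖ₑ ^ 2 +
      ‖avM (ev V) v (Nk n) (dl 0) - b V‖ₑ ^ 2) ∂(PP d ν) ≠ ∞ := by
    rw [lintegral_tsum hfS]
    have hle : ∑' n, ∫⁻ V, (‖avP (ev V) v (Nk n) (dl 0) - b V‖ₑ ^ 2 +
        ‖avM (ev V) v (Nk n) (dl 0) - b V‖ₑ ^ 2) ∂(PP d ν) ≤
          ∑' n : ℕ, (2⁻¹ : ℝ≥0∞) ^ n := by
      refine ENNReal.tsum_le_tsum fun n => ?_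
      rw [lintegral_add_left' (hfP (Nk n))]
      exact (hNk n).le
    refine ne_top_of_le_ne_top ?_ hle
    rw [ENNReal.tsum_geometric]
    simp
  have hae := ae_lt_top' (AEMeasurable.tsum hfS) hsum
  have hG : ∀ᵐ V ∂(PP d ν), Tendsto (fun n => avP (ev V) v (Nk n) (dl 0)) atTop (𝓝 (b V)) ∧
      Tendsto (fun n => avM (ev V) v (Nk n) (dl 0)) atTop (𝓝 (b V)) := by
    filter_upwards [hae] with V hV
    have h0 := ENNReal.tendsto_atTop_zero_of_tsum_ne_top hV.ne
    constructor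
    · refine tendsto_of_enorm_sq (tendsto_of_tendsto_of_tendsto_of_le_of_le tendsto_const_nhds h0
        (fun _ => zero_le) fun n => ?_)
      exact le_self_add
    · refine tendsto_of_enorm_sq (tendsto_of_tendsto_of_tendsto_of_le_of_le tendsto_const_nhds h0
        (fun _ => zero_le) fun n => ?_)
      exact le_add_self
  have hGz : ∀ᵐ V ∂(PP d ν), ∀ z : Site d,
      Tendsto (fun n => avP (ev fun y => V (y + z)) v (Nk n) (dl 0)) atTop
        (𝓝 (b fun y => V (y + z))) ∧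
      Tendsto (fun n => avM (ev fun y => V (y + z)) v (Nk n) (dl 0)) atTop
        (𝓝 (b fun y => V (y + z))) := by
    rw [ae_all_iff]
    intro z
    exact ((h3 d ν).2 z).quasiMeasurePreserving.ae hG
  filter_upwards [hGz] with V hV
  have hlim : ∀ (z : Site d) (S : L2 (Site d) →L[ℂ] L2 (Site d)), IsShift (-z) S →
      Tendsto (fun k => PL (ev V) v (Nk k) (dl z)) atTop
        (𝓝 (χ z • S (b fun y => V (y + z)))) ∧
      Tendsto (fun k => ML (ev V) v (Nk k) (dl z)) atTop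
        (𝓝 (χ z • S (b fun y => V (y + z)))) := by
    intro z S hS
    obtain ⟨T, hT⟩ := (h5 d).1 z
    have hinv : ∀ ψ, S (T ψ) = ψ := fun ψ => by
      ext x
      rw [hS, hT, neg_add_cancel_right]
    have hz : χ z * χ (-z) = 1 := by rw [← h.mul, add_neg_cancel, h.zero]
    constructor
    · have := ((S.continuous.tendsto _).comp (hV z).1).const_smul (χ z)
      refine this.congr fun k => ?_
      rw [PL_apply]
      have e := avP_conj (z := z) hev h hT hS V (Nk k) (dl 0)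
      show χ z • S (avP (ev fun y => V (y + z)) v (Nk k) (dl 0)) = _
      rw [e, map_smul, smul_smul, hz, one_smul, hinv, LIMB.shift_dl z S hS]
    · have := ((S.continuous.tendsto _).comp (hV z).2).const_smul (χ z)
      refine this.congr fun k => ?_
      rw [ML_apply]
      have e := avM_conj (z := z) hev h hT hS V (Nk k) (dl 0)
      show χ z • S (avM (ev fun y => V (y + z)) v (Nk k) (dl 0)) = _
      rw [e, map_smul, smul_smul, hz, one_smul, hinv, LIMB.shift_dl z S hS]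
  obtain ⟨B, hB⟩ := ext_lim (fun k => PL (ev V) v (Nk k)) (fun k => ML (ev V) v (Nk k))
    ‖v‖ (norm_nonneg _) (fun k => norm_PL (ev V) v (Nk k))
    (fun k => norm_ML (ev V) v (Nk k))
    (Site d) dl (dl_dense d) (fun z => by
      obtain ⟨S, hS⟩ := (h5 d).1 (-z)
      exact ⟨_, hlim z S hS⟩)
  refine ⟨B, hB, fun z S hS => ?_⟩
  exact tendsto_nhds_unique (hB (dl z)).1 (hlim z S hS).1

end Pool.Agent.H39.AC
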