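import Pool.Agent.H39.AC.Tw2
import Pool.Graph.R_seed8.Y662.ERG.F1

/-! # Averaged characters preserve the cyclic subspaces of the sites -/

set_option autoImplicit false

open MeasureTheory Filter Topology
open scoped BigOperators ENNReal NNReal InnerProductSpace ComplexConjugate

namespace Pool.Agent.H39.AC

open Pool.Agent.H5R2.NB Pool.Agent.H5R2.NBA Pool.Agent.R988.NQ

section comb

variable {X : Type} [NormedAddCommGroup X] [InnerProductSpace ℂ X] [CompleteSpace X]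

theorem avP_comb (W : UG X) (v v' : X →L[ℂ] X) (a b : ℂ) (N : ℕ) (x : X) :
    avP W (a • v + b • v') N x = a • avP W v N x + b • avP W v' N x := by
  unfold avP
  have i1 := (LIMB.cont_P W v x).intervalIntegrable (μ := volume) (0 : ℝ) (N : ℝ)
  have i2 := (LIMB.cont_P W v' x).intervalIntegrable (μ := volume) (0 : ℝ) (N : ℝ)
  have e : ∀ s : ℝ, W.U (-s) ((a • v + b • v') (W.U s x)) =
      a • W.U (-s) (v (W.U s x)) + b • W.U (-s) (v' (W.U s x)) := by
    intro s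
    show W.U (-s) (a • v (W.U s x) + b • v' (W.U s x)) = _
    rw [map_add, map_smul, map_smul]
  simp_rw [e]
  have j := intervalIntegral.integral_add (μ := volume) (a := (0 : ℝ)) (b := (N : ℝ))
    (f := fun s => a • W.U (-s) (v (W.U s x))) (g := fun s => b • W.U (-s) (v' (W.U s x)))
    (i1.smul a) (i2.smul b)
  rw [j, intervalIntegral.integral_smul,
    intervalIntegral.integral_smul, smul_add, smul_comm, smul_comm _ b]

theorem avM_comb (W : UG X) (v v' : X →L[ℂ] X) (a b : ℂ) (N : ℕ) (x : X) :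
    avM W (a • v + b • v') N x = a • avM W v N x + b • avM W v' N x := by
  unfold avM
  have i1 := (LIMB.cont_M W v x).intervalIntegrable (μ := volume) (0 : ℝ) (N : ℝ)
  have i2 := (LIMB.cont_M W v' x).intervalIntegrable (μ := volume) (0 : ℝ) (N : ℝ)
  have e : ∀ s : ℝ, W.U s ((a • v + b • v') (W.U (-s) x)) =
      a • W.U s (v (W.U (-s) x)) + b • W.U s (v' (W.U (-s) x)) := by
    intro s
    show W.U s (a • v (W.U (-s) x) + b • v' (W.U (-s) x)) = _
    rw [map_add, map_smul, map_smul]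
  simp_rw [e]
  have j := intervalIntegral.integral_add (μ := volume) (a := (0 : ℝ)) (b := (N : ℝ))
    (f := fun s => a • W.U s (v (W.U (-s) x))) (g := fun s => b • W.U s (v' (W.U (-s) x)))
    (i1.smul a) (i2.smul b)
  rw [j, intervalIntegral.integral_smul,
    intervalIntegral.integral_smul, smul_add, smul_comm, smul_comm _ b]

theorem good_comb {W : UG X} {v v' : X →L[ℂ] X} {Nk : ℕ → ℕ} {B B' : X →L[ℂ] X} (a b : ℂ)
    (h : Good W v Nk B) (h' : Good W v' Nk B') :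
    Good W (a • v + b • v') Nk (a • B + b • B') := by
  intro x
  constructor
  · refine (((h x).1.const_smul a).add ((h' x).1.const_smul b)).congr fun k => ?_
    rw [avP_comb]
  · refine (((h x).2.const_smul a).add ((h' x).2.const_smul b)).congr fun k => ?_
    rw [avM_comb]

end comb

variable {d : ℕ} {c : ℝ} {ev : (Site d → ℝ) → UG (L2 (Site d))} {z : Site d}
  {S T : L2 (Site d) →L[ℂ] L2 (Site d)} {χ χ' : Site d → ℂ}

theorem adj_pair (h : Chr χ) (h' : Chr χ') (hc : ∀ x, χ' x = conj (χ x)) (f g : L2 (Site d)) :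
    ⟪cmul χ h.nrm f, g⟫_ℂ = ⟪f, cmul χ' h'.nrm g⟫_ℂ := by
  obtain rfl : χ' = fun x => conj (χ x) := funext hc
  exact cmul_adj χ h.nrm h'.nrm f g

/-- the symmetric combinations -/
theorem sym_comb (h : Chr χ) (h' : Chr χ') (hc : ∀ x, χ' x = conj (χ x)) (a : ℂ)
    (f g : L2 (Site d)) :
    ⟪(a • cmul χ h.nrm + conj a • cmul χ' h'.nrm) f, g⟫_ℂ =
      ⟪f, (a • cmul χ h.nrm + conj a • cmul χ' h'.nrm) g⟫_ℂ := by
  have hc' : ∀ x, χ x = conj (χ' x) := fun x => by rw [hc, Complex.conj_conj]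
  show ⟪a • cmul χ h.nrm f + conj a • cmul χ' h'.nrm f, g⟫_ℂ =
    ⟪f, a • cmul χ h.nrm g + conj a • cmul χ' h'.nrm g⟫_ℂ
  rw [inner_add_left, inner_add_right, inner_smul_left, inner_smul_left, inner_smul_right,
    inner_smul_right, adj_pair h h' hc, adj_pair h' h hc', Complex.conj_conj]
  ring

/-- both averages converge along `Nk` -/
def Two (W : UG (L2 (Site d))) (h : Chr χ) (h' : Chr χ') (Nk : ℕ → ℕ) : Prop :=
  (∃ B : L2 (Site d) →L[ℂ] L2 (Site d), Good W (cmul χ h.nrm) Nk B) ∧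
    ∃ B : L2 (Site d) →L[ℂ] L2 (Site d), Good W (cmul χ' h'.nrm) Nk B

theorem f1_0 (hev : ∀ V, IsGrp c V (ev V)) (h : Chr χ) (h' : Chr χ')
    (hc : ∀ x, χ' x = conj (χ x)) (ν : Measure ℝ)
    [IsProbabilityMeasure ν] (hν : ∀ κ : ℝ, ν {κ} ≠ 1) (Nk : ℕ → ℕ) (hNk : Tendsto Nk atTop atTop)
    (hG : ∀ᵐ V ∂(PP d ν), Two (ev V) h h' Nk) :
    ∀ᵐ V ∂(PP d ν), ∀ B B' : L2 (Site d) →L[ℂ] L2 (Site d), Good (ev V) (cmul χ h.nrm) Nk B →
      Good (ev V) (cmul χ' h'.nrm) Nk B' →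
      ∀ φ ∈ HAC (ev V), (∀ t, ⟪φ, (ev V).U t (dl 0)⟫_ℂ = 0) →
        ⟪B φ, (dl 0 : L2 (Site d))⟫_ℂ = 0 := by
  have hmp := (t_RES d ν).1
  have h1 : ∀ᵐ p ∂((PP d ν).prod ν), Two (ev (Function.update p.1 0 p.2)) h h' Nk :=
    hmp.quasiMeasurePreserving.ae hG
  have h2 := Measure.ae_ae_of_ae_prod h1
  filter_upwards [h2] with V hV B B' hB hB' φ hφ hort
  have h3 : ∃ k, k ≠ V 0 ∧ Two (ev (Function.update V 0 k)) h h' Nk := by
    by_contra hcon
    have h4 : ∀ᵐ k ∂ν, k = V 0 := by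
      filter_upwards [hV] with k hk
      by_contra hne
      exact hcon ⟨k, hne, hk⟩
    have h5 : ν {V 0} = 1 := by
      rw [← prob_compl_eq_zero_iff (measurableSet_singleton _)]
      exact h4
    exact hν _ h5
  obtain ⟨k, hk, ⟨B1, hB1⟩, ⟨B2, hB2⟩⟩ := h3
  have hfam := t_FAM ALL.a_UN d c ev hev V
  have hup : Function.update V 0 (V 0) = V := Function.update_eq_self 0 V
  have key : ∀ a : ℂ, ⟪(a • B + conj a • B') φ, (dl 0 : L2 (Site d))⟫_ℂ = 0 := by
    intro a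
    have g1 := good_comb a (conj a) hB1 hB2
    have g2 := good_comb a (conj a) hB hB'
    refine Pool.Agent.Y662.ERG.w6_hac (fun κ => ev (Function.update V 0 κ)) (dl 0) hfam hk
      (a • cmul χ h.nrm + conj a • cmul χ' h'.nrm) (a • cmul χ h.nrm + conj a • cmul χ' h'.nrm)
      (sym_comb h h' hc a) (∅ : Finset (Site d)) (fun x => (dl x : L2 (Site d))) 0
      (fun x => ?_) Nk hNk _ _ g1 ?_ φ ?_ ?_
    · simp
    · simpa only [hup] using g2
    · simpa only [hup] using hφ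
    · simpa only [hup] using hort
  have k1 := key 1
  have k2 := key Complex.I
  have e : ∀ a : ℂ, ⟪(a • B + conj a • B') φ, (dl 0 : L2 (Site d))⟫_ℂ =
      conj a * ⟪B φ, (dl 0 : L2 (Site d))⟫_ℂ + a * ⟪B' φ, (dl 0 : L2 (Site d))⟫_ℂ := by
    intro a
    show ⟪a • B φ + conj a • B' φ, (dl 0 : L2 (Site d))⟫_ℂ = _
    rw [inner_add_left, inner_smul_left, inner_smul_left, Complex.conj_conj]
  rw [e, map_one, one_mul, one_mul] at k1
  rw [e, Complex.conj_I] at k2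
  have hI := Complex.I_ne_zero
  have k3 : Complex.I * (⟪B' φ, (dl 0 : L2 (Site d))⟫_ℂ - ⟪B φ, (dl 0 : L2 (Site d))⟫_ℂ) = 0 := by
    linear_combination k2
  rcases mul_eq_zero.1 k3 with k4 | k4
  · exact absurd k4 hI
  · have k5 : (2 : ℂ) * ⟪B φ, (dl 0 : L2 (Site d))⟫_ℂ = 0 := by linear_combination k1 - k4
    rcases mul_eq_zero.1 k5 with k6 | k6
    · norm_num at k6
    · exact k6

theorem two_symm {W : UG (L2 (Site d))} {h : Chr χ} {h' : Chr χ'} {Nk : ℕ → ℕ}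
    (H : Two W h h' Nk) : Two W h' h Nk := ⟨H.2, H.1⟩

theorem f1 (hev : ∀ V, IsGrp c V (ev V)) (h : Chr χ) (h' : Chr χ')
    (hc : ∀ x, χ' x = conj (χ x)) (ν : Measure ℝ)
    [IsProbabilityMeasure ν] (hν : ∀ κ : ℝ, ν {κ} ≠ 1) (Nk : ℕ → ℕ) (hNk : Tendsto Nk atTop atTop)
    (hG : ∀ᵐ V ∂(PP d ν), Two (ev V) h h' Nk) :
    ∀ᵐ V ∂(PP d ν), ∀ B B' : L2 (Site d) →L[ℂ] L2 (Site d), Good (ev V) (cmul χ h.nrm) Nk B →
      Good (ev V) (cmul χ' h'.nrm) Nk B' →
      ∀ z : Site d, ∀ φ ∈ HAC (ev V), (∀ t, ⟪φ, (ev V).U t (dl z)⟫_ℂ = 0) →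
        ⟪B φ, (dl z : L2 (Site d))⟫_ℂ = 0 := by
  have h2 := f1_0 hev h h' hc ν hν Nk hNk hG
  have h3 : ∀ᵐ V ∂(PP d ν), ∀ z : Site d, ∀ B B' : L2 (Site d) →L[ℂ] L2 (Site d),
      Good (ev fun y => V (y + z)) (cmul χ h.nrm) Nk B →
      Good (ev fun y => V (y + z)) (cmul χ' h'.nrm) Nk B' →
        ∀ φ ∈ HAC (ev fun y => V (y + z)),
          (∀ t, ⟪φ, (ev fun y => V (y + z)).U t (dl 0)⟫_ℂ = 0) →
          ⟪B φ, (dl 0 : L2 (Site d))⟫_ℂ = 0 := by
    rw [ae_all_iff]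
    intro z
    exact ((t_RES d ν).2 z).quasiMeasurePreserving.ae h2
  filter_upwards [h3] with V hV B B' hB hB' z φ hφ hort
  obtain ⟨S, hS⟩ := (t_OPS d).1 z
  obtain ⟨T, hT⟩ := (t_OPS d).1 (-z)
  have hSd : S (dl z) = dl 0 := by
    ext x
    rw [hS]
    unfold dl
    rw [lp.single_apply, lp.single_apply, Pi.single_apply, Pi.single_apply]
    by_cases h : x = 0
    · subst h; simp
    · rw [if_neg h, if_neg]
      intro h'
      apply h
      exact add_eq_right.1 h'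
  have hSi : ∀ a b : L2 (Site d), ⟪S a, S b⟫_ℂ = ⟪a, b⟫_ℂ := by
    intro a b
    rw [STAT.shift_inner z S T hS hT, ZAC.inv2 hS hT]
  have h4 := hV z _ _ (good_conj hev h hS hT V Nk B hB) (good_conj hev h' hS hT V Nk B' hB')
    (S φ) (ZAC.hac_conj hev hS hT V φ hφ)
    (fun t => by
      rw [← hSd, ALL.a_COV d c ev hev z S hS V, hSi]
      exact hort t)
  have h5 : (χ (-z) • ((S.comp B).comp T)) (S φ) = χ (-z) • S (B φ) := by
    show χ (-z) • S (B (T (S φ))) = _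
    rw [ZAC.inv2 hS hT]
  rw [h5, inner_smul_left, ← hSd, hSi] at h4
  rcases mul_eq_zero.1 h4 with h6 | h6
  · exact absurd h6 ((map_ne_zero _).2 (h.ne _))
  · exact h6

/-- the limits are adjoint to each other -/
theorem lim_adj {W : UG (L2 (Site d))} (h : Chr χ) (h' : Chr χ')
    (hc : ∀ x, χ' x = conj (χ x)) {Nk : ℕ → ℕ} {B B' : L2 (Site d) →L[ℂ] L2 (Site d)}
    (hB : Good W (cmul χ h.nrm) Nk B) (hB' : Good W (cmul χ' h'.nrm) Nk B') (a : ℂ)
    (x y : L2 (Site d)) :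
    ⟪(a • B + conj a • B') x, y⟫_ℂ = ⟪x, (a • B + conj a • B') y⟫_ℂ :=
  AB.B_symm W _ (sym_comb h h' hc a) Nk _ (good_comb a (conj a) hB hB') x y

end Pool.Agent.H39.AC
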