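import Pool.Agent.H39.AC.Tw4

/-! # The averaged character vanishes on the absolutely continuous subspace -/

set_option autoImplicit false

open MeasureTheory Filter Topology Set
open scoped ENNReal NNReal InnerProductSpace ComplexConjugate

namespace Pool.Agent.H39.AC

section pair

open Pool.Agent.H5R2.NB Pool.Agent.H5R2.NBA Pool.Agent.R988.NQ

variable {d : ℕ} {c : ℝ} {ev : (Site d → ℝ) → UG (L2 (Site d))} {χ χ' : Site d → ℂ}

/-- what holds for one potential -/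
structure PairL (W : UG (L2 (Site d))) (h : Chr χ) (h' : Chr χ') (Nk : ℕ → ℕ)
    (b b' : (Site d → ℝ) → L2 (Site d)) (V : Site d → ℝ)
    (B B' : L2 (Site d) →L[ℂ] L2 (Site d)) : Prop where
  g : Good W (cmul χ h.nrm) Nk B
  g' : Good W (cmul χ' h'.nrm) Nk B'
  e : ∀ (z : Site d) (S : L2 (Site d) →L[ℂ] L2 (Site d)), IsShift (-z) S →
    B (dl z) = χ z • S (b fun y => V (y + z))
  e' : ∀ (z : Site d) (S : L2 (Site d) →L[ℂ] L2 (Site d)), IsShift (-z) S →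
    B' (dl z) = χ' z • S (b' fun y => V (y + z))
  o : ∀ z : Site d, ∀ φ ∈ HAC W, (∀ t, ⟪φ, W.U t (dl z)⟫_ℂ = 0) →
    ⟪B φ, (dl z : L2 (Site d))⟫_ℂ = 0
  o' : ∀ z : Site d, ∀ φ ∈ HAC W, (∀ t, ⟪φ, W.U t (dl z)⟫_ℂ = 0) →
    ⟪B' φ, (dl z : L2 (Site d))⟫_ℂ = 0

theorem lim_pair (hev : ∀ V, IsGrp c V (ev V)) (h : Chr χ) (h' : Chr χ')
    (hc : ∀ x, χ' x = conj (χ x)) (ν : Measure ℝ) [IsProbabilityMeasure ν]
    (hν : ∀ κ : ℝ, ν {κ} ≠ 1) :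
    ∃ b b' : (Site d → ℝ) → L2 (Site d), AEStronglyMeasurable b (PP d ν) ∧
      AEStronglyMeasurable b' (PP d ν) ∧
      (Tendsto (fun N : ℕ => ∫⁻ V, ‖avP (ev V) (cmul χ h.nrm) N (dl 0) - b V‖ₑ ^ 2 ∂(PP d ν))
          atTop (𝓝 0)) ∧
      ∀ Mk : ℕ → ℕ, Tendsto Mk atTop atTop →
      ∃ a : ℕ → ℕ, StrictMono a ∧
        ∀ᵐ V ∂(PP d ν), ∃ B B' : L2 (Site d) →L[ℂ] L2 (Site d),
          PairL (ev V) h h' (Mk ∘ a) b b' V B B' := by
  have hc' : ∀ x, χ x = conj (χ' x) := fun x => by rw [hc, Complex.conj_conj]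
  obtain ⟨b, hb, hL, hlim⟩ := lim2 hev h ν
  obtain ⟨b', hb', -, hlim'⟩ := lim2 hev h' ν
  refine ⟨b, b', hb, hb', hL, fun Mk hMk => ?_⟩
  obtain ⟨a, ha, hG⟩ := hlim Mk hMk
  have hMa : Tendsto (Mk ∘ a) atTop atTop := hMk.comp ha.tendsto_atTop
  obtain ⟨a', ha', hG'⟩ := hlim' (Mk ∘ a) hMa
  have hNk : Tendsto (Mk ∘ (a ∘ a')) atTop atTop := hMa.comp ha'.tendsto_atTop
  have hGG : ∀ᵐ V ∂(PP d ν), ∃ B B' : L2 (Site d) →L[ℂ] L2 (Site d),
      Good (ev V) (cmul χ h.nrm) (Mk ∘ (a ∘ a')) B ∧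
      Good (ev V) (cmul χ' h'.nrm) (Mk ∘ (a ∘ a')) B' ∧
      (∀ (z : Site d) (S : L2 (Site d) →L[ℂ] L2 (Site d)), IsShift (-z) S →
        B (dl z) = χ z • S (b fun y => V (y + z))) ∧
      (∀ (z : Site d) (S : L2 (Site d) →L[ℂ] L2 (Site d)), IsShift (-z) S →
        B' (dl z) = χ' z • S (b' fun y => V (y + z))) := by
    filter_upwards [hG, hG'] with V ⟨B, hB1, hB2⟩ ⟨B', hB1', hB2'⟩
    refine ⟨B, B', fun x => ?_, hB1', hB2, hB2'⟩
    exact ⟨(hB1 x).1.comp ha'.tendsto_atTop, (hB1 x).2.comp ha'.tendsto_atTop⟩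
  refine ⟨a ∘ a', ha.comp ha', ?_⟩
  have hT : ∀ᵐ V ∂(PP d ν), Two (ev V) h h' (Mk ∘ (a ∘ a')) :=
    hGG.mono fun V ⟨B, B', h1, h2, _⟩ => ⟨⟨B, h1⟩, ⟨B', h2⟩⟩
  have hF := f1 hev h h' hc ν hν _ hNk hT
  have hF' := f1 hev h' h hc' ν hν _ hNk (hT.mono fun V hV => two_symm hV)
  filter_upwards [hGG, hF, hF'] with V ⟨B, B', h1, h2, h3, h4⟩ h5 h6
  exact ⟨B, B', h1, h2, h3, h4, h5 B B' h1 h2, h6 B' B h2 h1⟩

/-- the same with an additive constant -/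
theorem lim_pair_off (o : ℝ) (hev : ∀ ω : Site d → ℝ, IsGrp c (fun x => o + ω x) (ev ω))
    (h : Chr χ) (h' : Chr χ') (hc : ∀ x, χ' x = conj (χ x)) (ν : Measure ℝ)
    [IsProbabilityMeasure ν] (hν : ∀ κ : ℝ, ν {κ} ≠ 1) :
    ∃ b b' : (Site d → ℝ) → L2 (Site d), AEStronglyMeasurable b (PP d ν) ∧
      AEStronglyMeasurable b' (PP d ν) ∧
      ∀ Mk : ℕ → ℕ, Tendsto Mk atTop atTop →
      ∃ a : ℕ → ℕ, StrictMono a ∧
        ∀ᵐ ω ∂(PP d ν), ∃ B B' : L2 (Site d) →L[ℂ] L2 (Site d),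
          PairL (ev ω) h h' (Mk ∘ a) b b' ω B B' := by
  have hev' : ∀ V, IsGrp c V (ev (Pool.Agent.Y662.ERG.shf o V)) := by
    intro V
    have h := hev (Pool.Agent.Y662.ERG.shf o V)
    have e : (fun x => o + Pool.Agent.Y662.ERG.shf o V x) = V := by
      funext x
      unfold Pool.Agent.Y662.ERG.shf
      ring
    rwa [e] at h
  set e : (Site d → ℝ) ≃ᵐ (Site d → ℝ) := MeasurableEquiv.addLeft (fun _ : Site d => o) with he
  have hei : ∀ ω, e ω = fun x => o + ω x := fun ω => rfl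
  have hse : ∀ ω, Pool.Agent.Y662.ERG.shf o (e ω) = ω := by
    intro ω
    rw [hei]
    funext x
    unfold Pool.Agent.Y662.ERG.shf
    ring
  have hg : Measurable (fun r : ℝ => o + r) := by fun_prop
  have hpm : IsProbabilityMeasure (ν.map fun r : ℝ => o + r) :=
    Measure.isProbabilityMeasure_map hg.aemeasurable
  have hmap : (PP d ν).map e = PP d (ν.map fun r : ℝ => o + r) := by
    unfold PP
    exact Measure.infinitePi_map_pi (μ := fun _ : Site d => ν) (fun _ => hg)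
  have hne : ∀ κ : ℝ, (ν.map fun r : ℝ => o + r) {κ} ≠ 1 := by
    intro κ
    rw [Measure.map_apply hg (measurableSet_singleton κ)]
    have : (fun r : ℝ => o + r) ⁻¹' {κ} = {κ - o} := by
      ext r
      simp only [Set.mem_preimage, Set.mem_singleton_iff]
      constructor <;> intro h <;> linarith
    rw [this]
    exact hν _
  obtain ⟨b, b', hb, hb', -, hlim⟩ := lim_pair hev' h h' hc (ν.map fun r : ℝ => o + r) hne
  refine ⟨fun ω => b (e ω), fun ω => b' (e ω), ?_, ?_, fun Mk hMk => ?_⟩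
  · rw [← hmap] at hb
    exact hb.comp_aemeasurable e.measurable.aemeasurable
  · rw [← hmap] at hb'
    exact hb'.comp_aemeasurable e.measurable.aemeasurable
  · obtain ⟨a, ha, hG⟩ := hlim Mk hMk
    refine ⟨a, ha, ?_⟩
    rw [← hmap, e.measurableEmbedding.ae_map_iff] at hG
    filter_upwards [hG] with ω ⟨B, B', hω⟩
    rw [hse] at hω
    exact ⟨B, B', hω.g, hω.g', hω.e, hω.e', hω.o, hω.o'⟩

end pair

open Pool.Agent.TH980.IM Pool.Agent.H5R2 Pool.Agent.Y662.ERG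
open Pool.Agent.TH980.IM.PR

variable {d : ℕ} {ev : (NB.Site d → ℝ) → NB.UG (L2 d)} {χ χ' : Sd d → ℂ}

/-- **the averaged character vanishes on the absolutely continuous subspace** -/
theorem tw_main (hd : 1 ≤ d) {K : ℝ} {ν : Measure ℝ} [IsProbabilityMeasure ν]
    (hK : ∀ᵐ r ∂ν, |r| ≤ K) (hν : ∀ r : ℝ, ν {r} ≠ 1)
    (hev : ∀ ω : NB.Site d → ℝ, NB.IsGrp (-1) (fun x => 2 * d + ω x) (ev ω))
    (h : Chr χ) (h' : Chr χ') (hc : ∀ x, χ' x = conj (χ x)) {x0 : Sd d} (hx : χ x0 ≠ 1)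
    (Mk : ℕ → ℕ) (hMk : Tendsto Mk atTop atTop) :
    ∃ a : ℕ → ℕ, StrictMono a ∧ ∀ᵐ ω ∂(NB.PP d ν),
      ∃ B : L2 d →L[ℂ] L2 d, NB.Good (ev ω) (cmul χ h.nrm) (Mk ∘ a) B ∧
        ∀ ψ, spm (HV_sa K ω) ψ ≪ volume → B ψ = 0 := by
  obtain ⟨b, b', hb, hb', hlim⟩ := lim_pair_off (2 * d) hev h h' hc ν hν
  obtain ⟨a, ha, hG⟩ := hlim Mk hMk
  have hNk : Tendsto (Mk ∘ a) atTop atTop := hMk.comp ha.tendsto_atTop
  refine ⟨a, ha, ?_⟩
  -- the operators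
  set P : (NB.Site d → ℝ) → (L2 d →L[ℂ] L2 d) × (L2 d →L[ℂ] L2 d) → Prop := fun ω q =>
    PairL (ev ω) h h' (Mk ∘ a) b b' ω q.1 q.2 with hP
  set Bop : (NB.Site d → ℝ) → (L2 d →L[ℂ] L2 d) × (L2 d →L[ℂ] L2 d) := fun ω =>
    Classical.epsilon (fun q => P ω q) with hBop
  have hB : ∀ᵐ ω ∂(NB.PP d ν), P ω (Bop ω) := by
    filter_upwards [hG] with ω ⟨B, B', hω⟩
    exact Classical.epsilon_spec (p := fun q => P ω q) ⟨(B, B'), hω⟩
  have hbd : ∀ᵐ ω ∂(NB.PP d ν), ∀ x, |ω x| ≤ K := by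
    rw [ae_all_iff]
    intro x
    exact (measurePreserving_eval_infinitePi (fun _ : Sd d => ν) x).quasiMeasurePreserving.ae hK
  have hcom : ∀ᵐ ω ∂(NB.PP d ν), (∀ t x, (Bop ω).1 ((ev ω).U t x) = (ev ω).U t ((Bop ω).1 x)) ∧
      ∀ t x, (Bop ω).2 ((ev ω).U t x) = (ev ω).U t ((Bop ω).2 x) := by
    filter_upwards [hB] with ω hω
    exact ⟨(NB.t_BP _ (ev ω) _ _ hNk _ hω.g).2, (NB.t_BP _ (ev ω) _ _ hNk _ hω.g').2⟩
  have hcomT : ∀ᵐ ω ∂(NB.PP d ν), ∀ x, (Bop ω).1 (HV K ω x) = HV K ω ((Bop ω).1 x) := by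
    filter_upwards [hcom, hbd] with ω h1 h2
    exact comm_of_Ex fun t x => by rw [← grp_Ex h2 (hev ω), h1.1, grp_Ex h2 (hev ω)]
  obtain ⟨hh, Sg, hSg, hm, hcore⟩ := all_core (d := d) hd hK hν
  have h5 : ∀ᵐ ω ∂(NB.PP d ν), ∀ᵐ E : ℝ,
      (∃ g : ℂ, ∀ x, Ngl (HV K ω) E ((Bop ω).1 (ee x) - g • ee x)) ∧
      (E ∉ Sg → ∀ x, Ngl (HV K ω) E (ee x)) ∧
      (E ∈ Sg → ∀ x, ∃ a : ℝ, 0 < a ∧
        Tendsto (fun k => qn (HV K ω) (zk k E) (ee x)) atTop (𝓝 a)) := by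
    filter_upwards [hB, hcom, hbd, hcore] with ω e1 e3 e4 ⟨e5, e6, e7⟩
    have hgen : ∀ α : ℂ, ∀ᵐ E : ℝ,
        (∃ g : ℂ, ∀ x, Ngl (HV K ω) E ((α • (Bop ω).1 + conj α • (Bop ω).2) (ee x) - g • ee x)) ∧
        (E ∉ Sg → ∀ x, Ngl (HV K ω) E (ee x)) ∧
        (E ∈ Sg → ∀ x, ∃ a : ℝ, 0 < a ∧
          Tendsto (fun k => qn (HV K ω) (zk k E) (ee x)) atTop (𝓝 a)) := by
      intro α
      refine per_V (B := α • (Bop ω).1 + conj α • (Bop ω).2) hd e4 (hev ω)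
        (fun x y => lim_adj h h' hc e1.g e1.g' α x y) (fun t x => ?_) ?_ e5 e7 e6
      · show α • (Bop ω).1 ((ev ω).U t x) + conj α • (Bop ω).2 ((ev ω).U t x) =
          (ev ω).U t (α • (Bop ω).1 x + conj α • (Bop ω).2 x)
        rw [e3.1, e3.2, map_add, map_smul, map_smul]
      · intro z φ hφ hort
        show ⟪α • (Bop ω).1 φ + conj α • (Bop ω).2 φ, ee z⟫_ℂ = 0
        have o1 := e1.o z φ hφ hort
        have o2 := e1.o' z φ hφ hort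
        rw [inner_add_left, inner_smul_left, inner_smul_left]
        rw [ee_eq_dl, o1, o2, mul_zero, mul_zero, add_zero]
    filter_upwards [hgen 1, hgen Complex.I] with E ⟨⟨g1, hg1⟩, f2, f3⟩ ⟨⟨g2, hg2⟩, _, _⟩
    refine ⟨⟨(1 / 2) * g1 + (-Complex.I / 2) * g2, fun x => ?_⟩, f2, f3⟩
    have k1 := ((hg1 x).smul (1 / 2)).add ((hg2 x).smul (-Complex.I / 2))
    have e : (Bop ω).1 (ee x) - ((1 / 2) * g1 + (-Complex.I / 2) * g2) • (ee x : L2 d) =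
        (1 / 2 : ℂ) • (((1 : ℂ) • (Bop ω).1 + conj (1 : ℂ) • (Bop ω).2) (ee x) - g1 • ee x) +
        (-Complex.I / 2) • ((Complex.I • (Bop ω).1 + conj Complex.I • (Bop ω).2) (ee x) -
          g2 • ee x) := by
      have e1 : ((1 : ℂ) • (Bop ω).1 + conj (1 : ℂ) • (Bop ω).2) (ee x) =
          (Bop ω).1 (ee x) + (Bop ω).2 (ee x) := by
        show (1 : ℂ) • (Bop ω).1 (ee x) + conj (1 : ℂ) • (Bop ω).2 (ee x) = _
        rw [map_one, one_smul, one_smul]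
      have e2 : (Complex.I • (Bop ω).1 + conj Complex.I • (Bop ω).2) (ee x) =
          Complex.I • (Bop ω).1 (ee x) + (-Complex.I) • (Bop ω).2 (ee x) := by
        show Complex.I • (Bop ω).1 (ee x) + conj Complex.I • (Bop ω).2 (ee x) = _
        rw [Complex.conj_I]
      rw [e1, e2, smul_sub, smul_sub, smul_add, smul_add, smul_smul, smul_smul, smul_smul,
        smul_smul]
      have i1 : (-Complex.I / 2) * Complex.I = (1 / 2 : ℂ) := by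
        linear_combination (-1 / 2 : ℂ) * Complex.I_mul_I
      have i2 : (-Complex.I / 2) * (-Complex.I) = (-(1 / 2) : ℂ) := by
        linear_combination (1 / 2 : ℂ) * Complex.I_mul_I
      rw [i1, i2, add_smul]
      have i3 : (Bop ω).1 (ee x) = (1 / 2 : ℂ) • (Bop ω).1 (ee x) +
          (1 / 2 : ℂ) • (Bop ω).1 (ee x) := by
        rw [← add_smul]
        norm_num
      conv_lhs => rw [i3]
      rw [neg_smul]
      abel
    rw [e]
    exact k1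
  have h4 : ∀ᵐ ω ∂(NB.PP d ν), ∀ (z : Sd d) (S : L2 d →L[ℂ] L2 d), NB.IsShift (-z) S →
      (Bop ω).1 (ee z) = χ z • S (b (sh z ω)) := hB.mono fun ω hω => hω.e
  have hz := twist_core hd hSg h hx b hb (fun ω => (Bop ω).1) hcomT h4 h5
  filter_upwards [hB, hcomT, hz] with ω e1 e2 e3
  refine ⟨(Bop ω).1, e1.g, fun ψ hψ => ?_⟩
  have key : ∀ᵐ E : ℝ, Ngl (HV K ω) E ((Bop ω).1 ψ - (fun _ : ℝ => (0 : ℂ)) E • ψ) := by
    refine fib_all (HV_sa K ω) e2 (fun _ => (0 : ℂ)) (Dn d) Dn_dense ?_ ψ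
    rintro _ ⟨s, cc, rfl⟩
    filter_upwards [e3] with E hE
    rw [zero_smul, sub_zero, map_sum]
    refine Ngl.sum s fun x _ => ?_
    rw [map_smul]
    exact (hE x).smul _
  have hn := norm_of_ngl (HV_sa K ω) e2 (measurable_const) hψ key
  simp only [enorm_zero, ne_eq, OfNat.ofNat_ne_zero, not_false_eq_true, zero_pow,
    lintegral_zero] at hn
  have hn2 : ‖(Bop ω).1 ψ‖ₑ = 0 := by
    by_contra hne
    exact (pow_ne_zero 2 hne) hn
  exact enorm_eq_zero.1 hn2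

end Pool.Agent.H39.AC
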