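import Pool.Agent.H39.AC.Tw5

/-! # Almost sure convergence of the averages of characters, for all times -/

set_option autoImplicit false

open MeasureTheory Filter Topology
open scoped BigOperators ENNReal NNReal InnerProductSpace ComplexConjugate

namespace Pool.Agent.H39.AC

open Pool.Agent.H5R2.NB Pool.Agent.H5R2.NBA Pool.Agent.R988.NQ

variable {d : ℕ} {c : ℝ} {ev : (Site d → ℝ) → UG (L2 (Site d))} {χ χ' : Site d → ℂ}

/-- real part of a field -/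
noncomputable def reF (A A' : OF d) : OF d := fun V => (1 / 2 : ℂ) • (A V + A' V)

/-- imaginary part of a field -/
noncomputable def imF (A A' : OF d) : OF d := fun V => (-Complex.I / 2) • (A V - A' V)

theorem reF_apply (A A' : OF d) (V : Site d → ℝ) (ψ : L2 (Site d)) :
    reF A A' V ψ = (1 / 2 : ℂ) • (A V ψ + A' V ψ) := rfl

theorem imF_apply (A A' : OF d) (V : Site d → ℝ) (ψ : L2 (Site d)) :
    imF A A' V ψ = (-Complex.I / 2) • (A V ψ - A' V ψ) := rfl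

theorem fld_re {A A' : OF d} {C : ℝ} (hA : Fld C A) (hA' : Fld C A') : Fld C (reF A A') := by
  have h := hA.add hA'
  refine ⟨fun V ψ => ?_, fun f hf => (h.meas f hf).const_smul (1 / 2 : ℂ), fun z S hS V ψ => ?_⟩
  · rw [reF_apply, norm_smul]
    have h1 := h.bd V ψ
    rw [addF_apply] at h1
    have e : ‖(1 / 2 : ℂ)‖ = 1 / 2 := by norm_num
    rw [e]
    linarith
  · rw [reF_apply, reF_apply, hA.cov z S hS, hA'.cov z S hS, map_smul, map_add]

theorem fld_im {A A' : OF d} {C : ℝ} (hA : Fld C A) (hA' : Fld C A') : Fld C (imF A A') := by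
  have h := hA.sub hA'
  refine ⟨fun V ψ => ?_, fun f hf => (h.meas f hf).const_smul (-Complex.I / 2 : ℂ),
    fun z S hS V ψ => ?_⟩
  · rw [imF_apply, norm_smul]
    have h1 := h.bd V ψ
    rw [subF_apply] at h1
    have e : ‖(-Complex.I / 2 : ℂ)‖ = 1 / 2 := by
      rw [norm_div, norm_neg, Complex.norm_I]
      norm_num
    rw [e]
    linarith
  · rw [imF_apply, imF_apply, hA.cov z S hS, hA'.cov z S hS, map_smul, map_sub]

theorem sym_re {A A' : OF d} (h : Adj A A') : Sym (reF A A') := by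
  intro V f g
  rw [reF_apply, reF_apply, inner_smul_left, inner_smul_right, inner_add_left, inner_add_right,
    h V f g, h.symm V f g]
  have e2 : conj (2 : ℂ) = 2 := map_ofNat _ 2
  have e : conj (1 / 2 : ℂ) = 1 / 2 := by rw [map_div₀, map_one, e2]
  rw [e, add_comm]

theorem sym_im {A A' : OF d} (h : Adj A A') : Sym (imF A A') := by
  intro V f g
  rw [imF_apply, imF_apply, inner_smul_left, inner_smul_right, inner_sub_left, inner_sub_right,
    h V f g, h.symm V f g]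
  have e2 : conj (2 : ℂ) = 2 := map_ofNat _ 2
  have e : conj (-Complex.I / 2 : ℂ) = Complex.I / 2 := by
    rw [map_div₀, map_neg, Complex.conj_I, neg_neg, e2]
  rw [e]
  ring

theorem re_im (A A' : OF d) (V : Site d → ℝ) (ψ : L2 (Site d)) :
    A V ψ = reF A A' V ψ + Complex.I • imF A A' V ψ := by
  rw [reF_apply, imF_apply, smul_smul]
  have i1 : Complex.I * (-Complex.I / 2) = (1 / 2 : ℂ) := by
    linear_combination (-1 / 2 : ℂ) * Complex.I_mul_I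
  rw [i1, ← smul_add]
  have e : A V ψ + A' V ψ + (A V ψ - A' V ψ) = (2 : ℂ) • A V ψ := by
    rw [two_smul]; abel
  rw [e, smul_smul]
  norm_num

theorem sq_re_im (A A' : OF d) (V : Site d → ℝ) (ψ : L2 (Site d)) :
    ‖A V ψ‖ ^ 2 ≤ 2 * ‖reF A A' V ψ‖ ^ 2 + 2 * ‖imF A A' V ψ‖ ^ 2 := by
  have h1 : ‖A V ψ‖ ≤ ‖reF A A' V ψ‖ + ‖imF A A' V ψ‖ := by
    conv_lhs => rw [re_im A A' V ψ]
    refine (norm_add_le _ _).trans ?_
    rw [norm_smul, Complex.norm_I, one_mul]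
  have h2 := norm_nonneg (A V ψ)
  nlinarith [sq_nonneg (‖reF A A' V ψ‖ - ‖imF A A' V ψ‖), norm_nonneg (reF A A' V ψ),
    norm_nonneg (imF A A' V ψ)]

theorem sq_half (a b : L2 (Site d)) (z : ℂ) (hz : ‖z‖ = 1 / 2) :
    ‖z • (a + b)‖ ^ 2 ≤ (‖a‖ ^ 2 + ‖b‖ ^ 2) / 2 := by
  rw [norm_smul, hz]
  have h1 := norm_add_le a b
  have h2 := norm_nonneg (a + b)
  nlinarith [sq_nonneg (‖a‖ - ‖b‖), norm_nonneg a, norm_nonneg b]

variable {ν : Measure ℝ} [IsProbabilityMeasure ν]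

theorem int_sq {A : OF d} {C : ℝ} (hA : Fld C A) :
    Integrable (fun V => ‖vec A V‖ ^ 2) (PP d ν) := by
  refine Integrable.of_bound (hA.sm.norm.pow 2).aestronglyMeasurable (C ^ 2)
    (Eventually.of_forall fun V => ?_)
  rw [Real.norm_of_nonneg (sq_nonneg _)]
  exact pow_le_pow_left₀ (norm_nonneg _) (hA.nb V) 2

theorem tau_re {A A' : OF d} {C : ℝ} (hA : Fld C A) (hA' : Fld C A') (h : Adj A A') :
    tauB ν (reF A A') ≤ tauB ν A := by
  have h1 : tauB ν (reF A A') ≤ (tauB ν A + tauB ν A') / 2 := by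
    unfold tauB
    rw [← integral_add (int_sq hA) (int_sq hA'), ← integral_div]
    refine integral_mono (int_sq (fld_re hA hA')) (((int_sq hA).add (int_sq hA')).div_const 2) ?_
    intro V
    exact sq_half (A V (dl 0)) (A' V (dl 0)) _ (by norm_num)
  have h2 := tau_adj (ν := ν) hA hA' h
  linarith

theorem tau_im {A A' : OF d} {C : ℝ} (hA : Fld C A) (hA' : Fld C A') (h : Adj A A') :
    tauB ν (imF A A') ≤ tauB ν A := by
  have h1 : tauB ν (imF A A') ≤ (tauB ν A + tauB ν A') / 2 := by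
    unfold tauB
    rw [← integral_add (int_sq hA) (int_sq hA'), ← integral_div]
    refine integral_mono (int_sq (fld_im hA hA')) (((int_sq hA).add (int_sq hA')).div_const 2) ?_
    intro V
    have e : ‖(-Complex.I / 2 : ℂ)‖ = 1 / 2 := by
      rw [norm_div, norm_neg, Complex.norm_I]
      norm_num
    have := sq_half (A V (dl 0)) (-(A' V (dl 0))) _ e
    rw [norm_neg, ← sub_eq_add_neg] at this
    exact this
  have h2 := tau_adj (ν := ν) hA hA' h
  linarith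

theorem data_sym (hev : ∀ V, IsGrp c V (ev V)) (m : ℕ) {w : OF d} {β : ℝ}
    (hβ : 0 ≤ β) (hw : Fld β w) (sw : Sym w) :
    Data (Uf ev (m : ℝ)) (Uf ev (-(m : ℝ))) w β := by
  refine ⟨fld_U hev _, fld_U hev _, adj_U _, fun V f => ?_, fun V f => ?_,
    hβ, hw, sw⟩
  · show (ev V).U (-(m : ℝ)) ((ev V).U (m : ℝ) f) = f
    rw [← (ev V).add', neg_add_cancel, (ev V).zero']
  · show (ev V).U (m : ℝ) ((ev V).U (-(m : ℝ)) f) = f
    rw [← (ev V).add', add_neg_cancel, (ev V).zero']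

/-- mean square convergence implies almost sure convergence at the origin; general form -/
theorem quench_gen (hev : ∀ V, IsGrp c V (ev V)) (v : L2 (Site d) →L[ℂ] L2 (Site d))
    (w : OF d) {β : ℝ} (hβ : 0 ≤ β) (A A' : ℕ → OF d) (hA : ∀ m, Fld β (A m))
    (hA' : ∀ m, Fld β (A' m)) (hAA : ∀ m, Adj (A m) (A' m))
    (hn : ∀ m V φ, ‖avP (ev V) v m φ - w V φ‖ = ‖A m V φ‖)
    (comm : ∀ V t x, w V ((ev V).U t x) = (ev V).U t (w V x))
    (hlim : Tendsto (fun m : ℕ => tauB ν (A m)) atTop (𝓝 0)) :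
    ∀ᵐ V ∂(PP d ν), Tendsto (fun N : ℕ => avP (ev V) v N (dl 0)) atTop (𝓝 (w V (dl 0))) := by
  have hD1 := fun m : ℕ => data_sym hev m hβ (fld_re (hA m) (hA' m)) (sym_re (hAA m))
  have hD2 := fun m : ℕ => data_sym hev m hβ (fld_im (hA m) (hA' m)) (sym_im (hAA m))
  set R : ℕ → (Site d → ℝ) → ℝ≥0∞ := fun m V => ⨆ n : ℕ, ENNReal.ofReal
    (qq (Uf ev (m : ℝ)) (Uf ev (-(m : ℝ))) (reF (A m) (A' m)) (n + 1) V /
      ((n + 1 : ℕ) : ℝ)) with hR
  set J : ℕ → (Site d → ℝ) → ℝ≥0∞ := fun m V => ⨆ n : ℕ, ENNReal.ofReal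
    (qq (Uf ev (m : ℝ)) (Uf ev (-(m : ℝ))) (imF (A m) (A' m)) (n + 1) V /
      ((n + 1 : ℕ) : ℝ)) with hJ
  have hRm : ∀ m, Measurable (R m) := fun m => Measurable.iSup fun n =>
    ENNReal.measurable_ofReal.comp ((meas_qq (hD1 m) (n + 1)).div_const _)
  have hJm : ∀ m, Measurable (J m) := fun m => Measurable.iSup fun n =>
    ENNReal.measurable_ofReal.comp ((meas_qq (hD2 m) (n + 1)).div_const _)
  have hsmall : ∀ ε : ℝ, 0 < ε → ∃ m : ℕ, 0 < m ∧
      ∫⁻ V, (R m V + J m V) ∂(PP d ν) ≤ ENNReal.ofReal (6 * ε) := by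
    intro ε hε
    have h1 : ∀ᶠ m : ℕ in atTop, 2 * β ^ 2 * (tauB ν (A m) / ε) < ε := by
      have h2 : Tendsto (fun m : ℕ => 2 * β ^ 2 * (tauB ν (A m) / ε)) atTop
          (𝓝 0) := by
        have := (hlim.div_const ε).const_mul (2 * β ^ 2)
        simpa using this
      exact (tendsto_order.1 h2).2 ε hε
    obtain ⟨m, hm, hm0⟩ := (h1.and (eventually_gt_atTop 0)).exists
    refine ⟨m, hm0, ?_⟩
    rw [lintegral_add_left (hRm m)]
    have b1 : ∫⁻ V, R m V ∂(PP d ν) ≤ ENNReal.ofReal (3 * ε) := by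
      refine (maximal (hD1 m) hε).trans (ENNReal.ofReal_le_ofReal ?_)
      have h3 := tau_re (ν := ν) (hA m) (hA' m) (hAA m)
      have h4 : 2 * β ^ 2 * (tauB ν (reF (A m) (A' m)) / ε) ≤ 2 * β ^ 2 * (tauB ν (A m) / ε) := by
        gcongr
      linarith
    have b2 : ∫⁻ V, J m V ∂(PP d ν) ≤ ENNReal.ofReal (3 * ε) := by
      refine (maximal (hD2 m) hε).trans (ENNReal.ofReal_le_ofReal ?_)
      have h3 := tau_im (ν := ν) (hA m) (hA' m) (hAA m)
      have h4 : 2 * β ^ 2 * (tauB ν (imF (A m) (A' m)) / ε) ≤ 2 * β ^ 2 * (tauB ν (A m) / ε) := by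
        gcongr
      linarith
    refine (add_le_add b1 b2).trans ?_
    rw [← ENNReal.ofReal_add (by positivity) (by positivity)]
    refine ENNReal.ofReal_le_ofReal (le_of_eq (by ring))
  -- the infimum vanishes
  have hinf : ∀ᵐ V ∂(PP d ν), (⨅ m : ℕ, (R (m + 1) V + J (m + 1) V)) = 0 := by
    have hm : Measurable fun V => ⨅ m : ℕ, (R (m + 1) V + J (m + 1) V) :=
      Measurable.iInf fun m => (hRm (m + 1)).add (hJm (m + 1))
    have h0 : ∫⁻ V, (⨅ m : ℕ, (R (m + 1) V + J (m + 1) V)) ∂(PP d ν) = 0 := by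
      refine le_antisymm ?_ bot_le
      refine ge_of_tendsto (x := 𝓝[>] (0 : ℝ)) (f := fun ε => ENNReal.ofReal (6 * ε)) ?_ ?_
      · have hc : Continuous fun ε : ℝ => ENNReal.ofReal (6 * ε) :=
          ENNReal.continuous_ofReal.comp (continuous_const.mul continuous_id)
        have := hc.tendsto 0
        rw [mul_zero, ENNReal.ofReal_zero] at this
        exact this.mono_left nhdsWithin_le_nhds
      · filter_upwards [self_mem_nhdsWithin] with ε hε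
        obtain ⟨m, hm0, hm1⟩ := hsmall ε hε
        refine le_trans (lintegral_mono fun V => ?_) hm1
        obtain ⟨k, rfl⟩ : ∃ k, m = k + 1 := ⟨m - 1, by omega⟩
        exact iInf_le (fun m : ℕ => R (m + 1) V + J (m + 1) V) k
    exact (lintegral_eq_zero_iff hm).1 h0
  filter_upwards [hinf] with V hV
  refine tendsto_of_blocks (ev V) v (dl 0) (w V (dl 0)) fun ε hε => ?_
  have h1 : (⨅ m : ℕ, (R (m + 1) V + J (m + 1) V)) < ENNReal.ofReal (ε ^ 2 / 4) := by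
    rw [hV]
    exact ENNReal.ofReal_pos.2 (by positivity)
  obtain ⟨k, hk⟩ := iInf_lt_iff.1 h1
  refine ⟨k + 1, Nat.succ_pos k, fun n hn' => ?_⟩
  obtain ⟨n', rfl⟩ : ∃ n', n = n' + 1 := ⟨n - 1, by omega⟩
  have hkR : R (k + 1) V ≤ ENNReal.ofReal (ε ^ 2 / 4) := le_self_add.trans hk.le
  have hkJ : J (k + 1) V ≤ ENNReal.ofReal (ε ^ 2 / 4) := le_add_self.trans hk.le
  have h2 : ENNReal.ofReal (qq (Uf ev ((k + 1 : ℕ) : ℝ)) (Uf ev (-((k + 1 : ℕ) : ℝ)))
      (reF (A (k + 1)) (A' (k + 1))) (n' + 1) V / ((n' + 1 : ℕ) : ℝ)) ≤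
        ENNReal.ofReal (ε ^ 2 / 4) :=
    (le_iSup (fun n : ℕ => ENNReal.ofReal (qq (Uf ev ((k + 1 : ℕ) : ℝ))
      (Uf ev (-((k + 1 : ℕ) : ℝ))) (reF (A (k + 1)) (A' (k + 1))) (n + 1) V /
        ((n + 1 : ℕ) : ℝ))) n').trans hkR
  have h2' : ENNReal.ofReal (qq (Uf ev ((k + 1 : ℕ) : ℝ)) (Uf ev (-((k + 1 : ℕ) : ℝ)))
      (imF (A (k + 1)) (A' (k + 1))) (n' + 1) V / ((n' + 1 : ℕ) : ℝ)) ≤
        ENNReal.ofReal (ε ^ 2 / 4) :=
    (le_iSup (fun n : ℕ => ENNReal.ofReal (qq (Uf ev ((k + 1 : ℕ) : ℝ))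
      (Uf ev (-((k + 1 : ℕ) : ℝ))) (imF (A (k + 1)) (A' (k + 1))) (n + 1) V /
        ((n + 1 : ℕ) : ℝ))) n').trans hkJ
  rw [ENNReal.ofReal_le_ofReal_iff (by positivity)] at h2 h2'
  have h3 := block_bound (ev V) v (w V) (comm V) (k + 1) (n' + 1) (Nat.succ_pos k)
    (Nat.succ_pos n') (dl 0)
  have h4 := SS_eq (ev := ev) (m := k + 1) (hD1 (k + 1)).sB (n' + 1) V (dl 0)
  have h4' := SS_eq (ev := ev) (m := k + 1) (hD2 (k + 1)).sB (n' + 1) V (dl 0)
  unfold qq at h2 h2'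
  rw [h4] at h2
  rw [h4'] at h2'
  have h5 : ‖avP (ev V) v ((n' + 1) * (k + 1)) (dl 0) - w V (dl 0)‖ ^ 2 ≤ ε ^ 2 := by
    refine h3.trans ?_
    have hnpos : (0 : ℝ) < ((n' + 1 : ℕ) : ℝ) := by positivity
    rw [div_le_iff₀ hnpos] at h2 h2' ⊢
    have h6 : ∑ i ∈ Finset.range (n' + 1),
        ‖avP (ev V) v (k + 1) ((ev V).U (((i * (k + 1) : ℕ) : ℝ)) (dl 0)) -
          w V ((ev V).U (((i * (k + 1) : ℕ) : ℝ)) (dl 0))‖ ^ 2 ≤
        2 * (∑ i ∈ Finset.range (n' + 1),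
          ‖reF (A (k + 1)) (A' (k + 1)) V ((ev V).U (((i * (k + 1) : ℕ) : ℝ)) (dl 0))‖ ^ 2) +
        2 * ∑ i ∈ Finset.range (n' + 1),
          ‖imF (A (k + 1)) (A' (k + 1)) V ((ev V).U (((i * (k + 1) : ℕ) : ℝ)) (dl 0))‖ ^ 2 := by
      rw [Finset.mul_sum, Finset.mul_sum, ← Finset.sum_add_distrib]
      refine Finset.sum_le_sum fun i _ => ?_
      rw [hn]
      exact sq_re_im _ _ _ _
    linarith
  exact (sq_le_sq₀ (norm_nonneg _) hε.le).1 h5

/-! ### the limit field -/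

open Classical in
/-- the limit of the averages along `Nk` where both limits exist, zero elsewhere -/
noncomputable def wX (ev : (Site d → ℝ) → UG (L2 (Site d))) (h : Chr χ) (h' : Chr χ')
    (Nk : ℕ → ℕ) : OF d := fun V =>
  if H : Two (ev V) h h' Nk then Classical.choose H.1 else 0

theorem wX_eq {h : Chr χ} {h' : Chr χ'} {Nk : ℕ → ℕ} {V : Site d → ℝ}
    (H : Two (ev V) h h' Nk) {B : L2 (Site d) →L[ℂ] L2 (Site d)}
    (hB : Good (ev V) (cmul χ h.nrm) Nk B) : wX ev h h' Nk V = B := by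
  unfold wX
  rw [dif_pos H]
  exact good_uniq (Classical.choose_spec H.1) hB

theorem wX_zero {h : Chr χ} {h' : Chr χ'} {Nk : ℕ → ℕ} {V : Site d → ℝ}
    (H : ¬ Two (ev V) h h' Nk) : wX ev h h' Nk V = 0 := by
  unfold wX
  rw [dif_neg H]

/-- where the averages converge -/
theorem meas_goodX (hev : ∀ V, IsGrp c V (ev V)) (h : Chr χ)
    (Nk : ℕ → ℕ) : MeasurableSet {V : Site d → ℝ | ∃ B : L2 (Site d) →L[ℂ] L2 (Site d),
      Good (ev V) (cmul χ h.nrm) Nk B} := by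
  have e : {V : Site d → ℝ | ∃ B : L2 (Site d) →L[ℂ] L2 (Site d),
      Good (ev V) (cmul χ h.nrm) Nk B} =
      ⋂ z : Site d, ({V | ∃ y, Tendsto (fun k => avP (ev V) (cmul χ h.nrm) (Nk k) (dl z)) atTop
        (𝓝 y)} ∩
        {V | Tendsto (fun k => ‖avP (ev V) (cmul χ h.nrm) (Nk k) (dl z) -
          avM (ev V) (cmul χ h.nrm) (Nk k) (dl z)‖) atTop (𝓝 0)}) := by
    ext V
    simp only [Set.mem_ofPred_eq, Set.mem_iInter, Set.mem_inter_iff]
    constructor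
    · rintro ⟨B, hB⟩ z
      refine ⟨⟨B (dl z), (hB (dl z)).1⟩, ?_⟩
      have := ((hB (dl z)).1.sub (hB (dl z)).2).norm
      rwa [sub_self, norm_zero] at this
    · intro h
      obtain ⟨B, hB⟩ := LIMB.ext_lim (fun k => LIMB.PL (ev V) (cmul χ _) (Nk k))
        (fun k => LIMB.ML (ev V) (cmul χ _) (Nk k)) ‖cmul χ _‖
        (norm_nonneg _) (fun k => LIMB.norm_PL (ev V) (cmul χ _) (Nk k))
        (fun k => LIMB.norm_ML (ev V) (cmul χ _) (Nk k))
        (Site d) dl (LIMB.dl_dense d) (fun z => by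
          obtain ⟨⟨y, hy⟩, h2⟩ := h z
          refine ⟨y, hy, ?_⟩
          have h3 := hy.sub (tendsto_zero_iff_norm_tendsto_zero.2 h2)
          rw [sub_zero] at h3
          refine h3.congr fun k => ?_
          rw [sub_sub_cancel]
          rfl)
      exact ⟨B, hB⟩
  rw [e]
  refine MeasurableSet.iInter fun z => MeasurableSet.inter ?_ ?_
  · refine StronglyMeasurable.measurableSet_exists_tendsto fun k => ?_
    exact sm_avX hev _ (Nk k) _ stronglyMeasurable_const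
  · refine measurableSet_tendsto (𝓝 0) fun k => ?_
    have s1 := sm_avX hev (cmul χ h.nrm) (Nk k) (fun _ => dl z) stronglyMeasurable_const
    have s2 := sm_avMX hev (cmul χ h.nrm) (Nk k) (fun _ => dl z) stronglyMeasurable_const
    exact (s1.sub s2).norm.measurable

theorem meas_two (hev : ∀ V, IsGrp c V (ev V)) (h : Chr χ) (h' : Chr χ') (Nk : ℕ → ℕ) :
    MeasurableSet {V : Site d → ℝ | Two (ev V) h h' Nk} :=
  (meas_goodX hev h Nk).inter (meas_goodX hev h' Nk)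

theorem two_conj (hev : ∀ V, IsGrp c V (ev V)) {h : Chr χ} {h' : Chr χ'} {Nk : ℕ → ℕ}
    (z : Site d) {V : Site d → ℝ} (H : Two (ev V) h h' Nk) :
    Two (ev fun y => V (y + z)) h h' Nk := by
  obtain ⟨S, hS⟩ := (t_OPS d).1 z
  obtain ⟨T, hT⟩ := (t_OPS d).1 (-z)
  obtain ⟨⟨B, hB⟩, ⟨B', hB'⟩⟩ := H
  exact ⟨⟨_, good_conj hev h hS hT V Nk B hB⟩, ⟨_, good_conj hev h' hS hT V Nk B' hB'⟩⟩

theorem two_conj' (hev : ∀ V, IsGrp c V (ev V)) {h : Chr χ} {h' : Chr χ'} {Nk : ℕ → ℕ}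
    (z : Site d) {V : Site d → ℝ} (H : Two (ev fun y => V (y + z)) h h' Nk) :
    Two (ev V) h h' Nk := by
  have h1 := two_conj hev (-z) H
  have e : (fun y => (fun y => V (y + z)) (y + -z)) = V := by
    funext y; simp
  rwa [e] at h1

theorem wX_bd {h : Chr χ} {h' : Chr χ'}
    {Nk : ℕ → ℕ} (hNk : Tendsto Nk atTop atTop) (V : Site d → ℝ) (ψ : L2 (Site d)) :
    ‖wX ev h h' Nk V ψ‖ ≤ 1 * ‖ψ‖ := by
  by_cases H : Two (ev V) h h' Nk
  · obtain ⟨B, hB⟩ := H.1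
    rw [wX_eq H hB]
    refine ((t_BP (Site d) (ev V) _ Nk hNk B hB).1 ψ).trans ?_
    refine mul_le_mul_of_nonneg_right ?_ (norm_nonneg _)
    refine ContinuousLinearMap.opNorm_le_bound _ zero_le_one fun x => ?_
    rw [cmul_norm, one_mul]
  · rw [wX_zero H]
    simp

theorem wX_meas (hev : ∀ V, IsGrp c V (ev V)) {h : Chr χ} {h' : Chr χ'}
    {Nk : ℕ → ℕ} (f : (Site d → ℝ) → L2 (Site d)) (hf : StronglyMeasurable f) :
    StronglyMeasurable fun V => wX ev h h' Nk V (f V) := by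
  have hm := meas_two hev h h' Nk
  refine stronglyMeasurable_of_tendsto (atTop : Filter ℕ)
    (f := fun k V => Set.indicator {V : Site d → ℝ | Two (ev V) h h' Nk}
      (fun V => avP (ev V) (cmul χ h.nrm) (Nk k) (f V)) V)
    (fun k => (sm_avX hev _ (Nk k) f hf).indicator hm) ?_
  rw [tendsto_pi_nhds]
  intro V
  by_cases H : Two (ev V) h h' Nk
  · have h' : V ∈ {V : Site d → ℝ | Two (ev V) h h' Nk} := H
    simp only [Set.indicator_of_mem h']
    obtain ⟨B, hB⟩ := H.1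
    rw [wX_eq H hB]
    exact (hB (f V)).1
  · have h' : V ∉ {V : Site d → ℝ | Two (ev V) h h' Nk} := H
    simp only [Set.indicator_of_notMem h']
    rw [wX_zero H]
    simp

theorem wX_cov (hev : ∀ V, IsGrp c V (ev V)) {h : Chr χ} {h' : Chr χ'}
    {Nk : ℕ → ℕ} {z : Site d} {S : L2 (Site d) →L[ℂ] L2 (Site d)} (hS : IsShift z S)
    (V : Site d → ℝ) (ψ : L2 (Site d)) :
    wX ev h h' Nk (fun y => V (y + z)) (S ψ) = χ (-z) • S (wX ev h h' Nk V ψ) := by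
  obtain ⟨T, hT⟩ := (t_OPS d).1 (-z)
  by_cases H : Two (ev V) h h' Nk
  · obtain ⟨B, hB⟩ := H.1
    rw [wX_eq H hB, wX_eq (two_conj hev z H) (good_conj hev h hS hT V Nk B hB)]
    show χ (-z) • S (B (T (S ψ))) = χ (-z) • S (B ψ)
    rw [ZAC.inv2 hS hT]
  · have h2 : ¬ Two (ev fun y => V (y + z)) h h' Nk := fun H2 => H (two_conj' hev z H2)
    rw [wX_zero H, wX_zero h2]
    simp

theorem wX_comm {h : Chr χ} {h' : Chr χ'} {Nk : ℕ → ℕ} (hNk : Tendsto Nk atTop atTop)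
    (V : Site d → ℝ) (t : ℝ) (x : L2 (Site d)) :
    wX ev h h' Nk V ((ev V).U t x) = (ev V).U t (wX ev h h' Nk V x) := by
  by_cases H : Two (ev V) h h' Nk
  · obtain ⟨B, hB⟩ := H.1
    rw [wX_eq H hB]
    exact (t_BP (Site d) (ev V) _ Nk hNk B hB).2 t x
  · rw [wX_zero H]
    simp

/-- from symmetric combinations to adjoints -/
theorem adj_of_sym {B B' : L2 (Site d) →L[ℂ] L2 (Site d)}
    (hs : ∀ (a : ℂ) x y, ⟪(a • B + conj a • B') x, y⟫_ℂ = ⟪x, (a • B + conj a • B') y⟫_ℂ)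
    (f g : L2 (Site d)) : ⟪B f, g⟫_ℂ = ⟪f, B' g⟫_ℂ := by
  have h1 : ∀ a : ℂ, conj a * ⟪B f, g⟫_ℂ + a * ⟪B' f, g⟫_ℂ =
      a * ⟪f, B g⟫_ℂ + conj a * ⟪f, B' g⟫_ℂ := by
    intro a
    have := hs a f g
    have e1 : ∀ x, (a • B + conj a • B') x = a • B x + conj a • B' x := fun x => rfl
    rw [e1, e1, inner_add_left, inner_add_right, inner_smul_left, inner_smul_left,
      inner_smul_right, inner_smul_right, Complex.conj_conj] at this
    exact this
  have k1 := h1 1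
  have k2 := h1 Complex.I
  rw [map_one, one_mul, one_mul, one_mul, one_mul] at k1
  rw [Complex.conj_I] at k2
  have hI := Complex.I_ne_zero
  have k3 : Complex.I * ((⟪B' f, g⟫_ℂ - ⟪B f, g⟫_ℂ) - (⟪f, B g⟫_ℂ - ⟪f, B' g⟫_ℂ)) = 0 := by
    linear_combination k2
  rcases mul_eq_zero.1 k3 with k4 | k4
  · exact absurd k4 hI
  · linear_combination (1 / 2 : ℂ) * k1 - (1 / 2 : ℂ) * k4

theorem adj_wX {h : Chr χ} {h' : Chr χ'} (hc : ∀ x, χ' x = conj (χ x)) {Nk : ℕ → ℕ} :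
    Adj (wX ev h h' Nk) (wX ev h' h Nk) := by
  intro V f g
  by_cases H : Two (ev V) h h' Nk
  · obtain ⟨⟨B, hB⟩, ⟨B', hB'⟩⟩ := id H
    rw [wX_eq H hB, wX_eq (two_symm H) hB']
    exact adj_of_sym (fun a x y => lim_adj h h' hc hB hB' a x y) f g
  · have H2 : ¬ Two (ev V) h' h Nk := fun H2 => H (two_symm H2)
    rw [wX_zero H, wX_zero H2]
    simp

theorem adj_PL {h : Chr χ} {h' : Chr χ'} (hc : ∀ x, χ' x = conj (χ x)) (m : ℕ) :
    Adj (fun V => LIMB.PL (ev V) (cmul χ h.nrm) m) (fun V => LIMB.PL (ev V) (cmul χ' h'.nrm) m) := by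
  intro V f g
  refine adj_of_sym (fun a x y => ?_) f g
  have h1 := AB.avP_symm (ev V) _ (sym_comb h h' hc a) m x y
  rw [avP_comb, avP_comb] at h1
  exact h1

/-- the covariant difference field -/
noncomputable def AX (ev : (Site d → ℝ) → UG (L2 (Site d))) (h : Chr χ) (h' : Chr χ')
    (Nk : ℕ → ℕ) (m : ℕ) : OF d := fun V =>
  (cmul χ' h'.nrm).comp (LIMB.PL (ev V) (cmul χ h.nrm) m - wX ev h h' Nk V)

/-- its adjoint -/
noncomputable def AY (ev : (Site d → ℝ) → UG (L2 (Site d))) (h : Chr χ) (h' : Chr χ')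
    (Nk : ℕ → ℕ) (m : ℕ) : OF d := fun V =>
  (LIMB.PL (ev V) (cmul χ' h'.nrm) m - wX ev h' h Nk V).comp (cmul χ h.nrm)

theorem AX_apply (h : Chr χ) (h' : Chr χ') (Nk : ℕ → ℕ) (m : ℕ) (V : Site d → ℝ)
    (ψ : L2 (Site d)) : AX ev h h' Nk m V ψ =
      cmul χ' h'.nrm (avP (ev V) (cmul χ h.nrm) m ψ - wX ev h h' Nk V ψ) := rfl

theorem AY_apply (h : Chr χ) (h' : Chr χ') (Nk : ℕ → ℕ) (m : ℕ) (V : Site d → ℝ)
    (ψ : L2 (Site d)) : AY ev h h' Nk m V ψ =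
      avP (ev V) (cmul χ' h'.nrm) m (cmul χ h.nrm ψ) - wX ev h' h Nk V (cmul χ h.nrm ψ) := rfl

theorem adj_A (h : Chr χ) (h' : Chr χ') (hc : ∀ x, χ' x = conj (χ x)) (Nk : ℕ → ℕ) (m : ℕ) :
    Adj (AX ev h h' Nk m) (AY ev h h' Nk m) := by
  have hc' : ∀ x, χ x = conj (χ' x) := fun x => by rw [hc, Complex.conj_conj]
  intro V f g
  rw [AX_apply, AY_apply, adj_pair h' h hc', inner_sub_left, inner_sub_right]
  congr 1
  · exact adj_PL (ev := ev) (h := h) (h' := h') hc m V f _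
  · exact adj_wX (ev := ev) (h := h) (h' := h') hc V f _

theorem norm_cm (h : Chr χ) : ‖cmul χ h.nrm‖ ≤ 1 :=
  ContinuousLinearMap.opNorm_le_bound _ zero_le_one fun x => by rw [cmul_norm, one_mul]

theorem avP_le (h : Chr χ) (V : Site d → ℝ) (m : ℕ) (ψ : L2 (Site d)) :
    ‖avP (ev V) (cmul χ h.nrm) m ψ‖ ≤ ‖ψ‖ := by
  have h1 := LIMB.norm_PL (ev V) (cmul χ h.nrm) m ψ
  refine h1.trans ?_
  calc ‖cmul χ h.nrm‖ * ‖ψ‖ ≤ 1 * ‖ψ‖ := mul_le_mul_of_nonneg_right (norm_cm h) (norm_nonneg _)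
    _ = ‖ψ‖ := one_mul _

theorem phase_cancel (h : Chr χ) (h' : Chr χ') (hc : ∀ x, χ' x = conj (χ x)) (z : Site d) :
    χ' z * χ z = 1 := by
  rw [hc]
  exact h.conj_mul z

theorem fld_AX (hev : ∀ V, IsGrp c V (ev V)) (h : Chr χ) (h' : Chr χ')
    (hc : ∀ x, χ' x = conj (χ x)) {Nk : ℕ → ℕ} (hNk : Tendsto Nk atTop atTop) (m : ℕ) :
    Fld 2 (AX ev h h' Nk m) := by
  refine ⟨fun V ψ => ?_, fun f hf => ?_, fun z S hS V ψ => ?_⟩
  · rw [AX_apply, cmul_norm]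
    refine (norm_sub_le _ _).trans ?_
    have h1 := avP_le (ev := ev) h V m ψ
    have h2 := wX_bd (ev := ev) (h := h) (h' := h') hNk V ψ
    linarith
  · have s1 := (sm_avX hev (cmul χ h.nrm) m f hf).sub (wX_meas hev (h := h) (h' := h') (Nk := Nk) f hf)
    exact (cmul χ' h'.nrm).continuous.comp_stronglyMeasurable s1
  · obtain ⟨T, hT⟩ := (t_OPS d).1 (-z)
    rw [AX_apply, AX_apply, avP_conj hev h hS hT, ZAC.inv2 hS hT, wX_cov hev hS, ← smul_sub,
      ← map_sub, map_smul, cmul_shift h' hS, smul_smul, mul_comm, phase_cancel h h' hc, one_smul]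

theorem fld_AY (hev : ∀ V, IsGrp c V (ev V)) (h : Chr χ) (h' : Chr χ')
    (hc : ∀ x, χ' x = conj (χ x)) {Nk : ℕ → ℕ} (hNk : Tendsto Nk atTop atTop) (m : ℕ) :
    Fld 2 (AY ev h h' Nk m) := by
  refine ⟨fun V ψ => ?_, fun f hf => ?_, fun z S hS V ψ => ?_⟩
  · rw [AY_apply]
    refine (norm_sub_le _ _).trans ?_
    have h1 := avP_le (ev := ev) h' V m (cmul χ h.nrm ψ)
    have h2 := wX_bd (ev := ev) (h := h') (h' := h) hNk V (cmul χ h.nrm ψ)
    rw [cmul_norm] at h1 h2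
    linarith
  · have hf2 : StronglyMeasurable fun V => cmul χ h.nrm (f V) :=
      (cmul χ h.nrm).continuous.comp_stronglyMeasurable hf
    exact (sm_avX hev (cmul χ' h'.nrm) m _ hf2).sub
      (wX_meas hev (h := h') (h' := h) (Nk := Nk) _ hf2)
  · obtain ⟨T, hT⟩ := (t_OPS d).1 (-z)
    have e1 : avP (ev fun y => V (y + z)) (cmul χ' h'.nrm) m (cmul χ h.nrm (S ψ)) =
        S (avP (ev V) (cmul χ' h'.nrm) m (cmul χ h.nrm ψ)) := by
      rw [avP_conj hev h' hS hT, cmul_shift h hS, map_smul, ZAC.inv2 hS hT]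
      have e3 : avP (ev V) (cmul χ' h'.nrm) m (χ (-z) • cmul χ h.nrm ψ) =
          χ (-z) • avP (ev V) (cmul χ' h'.nrm) m (cmul χ h.nrm ψ) :=
        (LIMB.PL (ev V) (cmul χ' h'.nrm) m).map_smul _ _
      rw [e3, map_smul, smul_smul, phase_cancel h h' hc, one_smul]
    have e2 : wX ev h' h Nk (fun y => V (y + z)) (cmul χ h.nrm (S ψ)) =
        S (wX ev h' h Nk V (cmul χ h.nrm ψ)) := by
      rw [cmul_shift h hS, map_smul, wX_cov hev hS, smul_smul, mul_comm, phase_cancel h h' hc,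
        one_smul]
    rw [AY_apply, AY_apply, e1, e2, map_sub]

/-- almost sure convergence at the origin -/
theorem quench0X (hev : ∀ V, IsGrp c V (ev V)) (h : Chr χ) (h' : Chr χ')
    (hc : ∀ x, χ' x = conj (χ x)) {Nk : ℕ → ℕ} (hNk : Tendsto Nk atTop atTop)
    (hlim : Tendsto (fun N : ℕ => ∫⁻ V, ‖avP (ev V) (cmul χ h.nrm) N (dl 0) -
      wX ev h h' Nk V (dl 0)‖ₑ ^ 2 ∂(PP d ν)) atTop (𝓝 0)) :
    ∀ᵐ V ∂(PP d ν), Tendsto (fun N : ℕ => avP (ev V) (cmul χ h.nrm) N (dl 0)) atTop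
      (𝓝 (wX ev h h' Nk V (dl 0))) := by
  refine quench_gen hev (cmul χ h.nrm) (wX ev h h' Nk) (β := 2) (by norm_num)
    (AX ev h h' Nk) (AY ev h h' Nk) (fld_AX hev h h' hc hNk) (fld_AY hev h h' hc hNk)
    (adj_A h h' hc Nk) (fun m V φ => ?_) (wX_comm hNk) ?_
  · rw [AX_apply, cmul_norm]
  · have h1 := (ENNReal.tendsto_toReal (by simp : (0 : ℝ≥0∞) ≠ ∞)).comp hlim
    rw [ENNReal.toReal_zero] at h1
    refine h1.congr fun m => ?_
    show (∫⁻ V, ‖avP (ev V) (cmul χ h.nrm) m (dl 0) - wX ev h h' Nk V (dl 0)‖ₑ ^ 2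
      ∂(PP d ν)).toReal = ∫ V, ‖vec (AX ev h h' Nk m) V‖ ^ 2 ∂(PP d ν)
    rw [integral_eq_lintegral_of_nonneg_ae (Eventually.of_forall fun V => sq_nonneg _)
      ((fld_AX hev h h' hc hNk m).sm.norm.pow 2).aestronglyMeasurable]
    congr 1
    refine lintegral_congr fun V => ?_
    rw [ENNReal.ofReal_pow (norm_nonneg _), ofReal_norm]
    show _ = ‖cmul χ' h'.nrm (avP (ev V) (cmul χ h.nrm) m (dl 0) - wX ev h h' Nk V (dl 0))‖ₑ ^ 2
    rw [← ofReal_norm, ← ofReal_norm, cmul_norm]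

/-- almost sure strong convergence -/
theorem quenchX (hev : ∀ V, IsGrp c V (ev V)) (h : Chr χ) (h' : Chr χ')
    (hc : ∀ x, χ' x = conj (χ x)) {Nk : ℕ → ℕ} (hNk : Tendsto Nk atTop atTop)
    (hlim : Tendsto (fun N : ℕ => ∫⁻ V, ‖avP (ev V) (cmul χ h.nrm) N (dl 0) -
      wX ev h h' Nk V (dl 0)‖ₑ ^ 2 ∂(PP d ν)) atTop (𝓝 0)) :
    ∀ᵐ V ∂(PP d ν), ∀ x, Tendsto (fun N : ℕ => avP (ev V) (cmul χ h.nrm) N x) atTop
      (𝓝 (wX ev h h' Nk V x)) := by
  have h0 := quench0X hev h h' hc hNk hlim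
  have hz : ∀ᵐ V ∂(PP d ν), ∀ z : Site d,
      Tendsto (fun N : ℕ => avP (ev fun y => V (y + z)) (cmul χ h.nrm) N (dl 0)) atTop
        (𝓝 (wX ev h h' Nk (fun y => V (y + z)) (dl 0))) := by
    rw [ae_all_iff]
    intro z
    exact ((t_RES d ν).2 z).quasiMeasurePreserving.ae h0
  filter_upwards [hz] with V hV
  have hdl : ∀ z, Tendsto (fun N : ℕ => avP (ev V) (cmul χ h.nrm) N (dl z)) atTop
      (𝓝 (wX ev h h' Nk V (dl z))) := by
    intro z
    obtain ⟨S, hS⟩ := (t_OPS d).1 (-z)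
    obtain ⟨T, hT⟩ := (t_OPS d).1 z
    have hTS : ∀ ψ, T (S ψ) = ψ := fun ψ => by
      ext x
      rw [hT, hS, add_neg_cancel_right]
    have hST : ∀ ψ, S (T ψ) = ψ := fun ψ => by
      ext x
      rw [hS, hT, neg_add_cancel_right]
    have hSd : S (dl 0) = dl z := LIMB.shift_dl z S hS
    have hTd : T (dl z) = dl 0 := by rw [← hSd, hTS]
    have hph : χ z * χ (-z) = 1 := by rw [← h.mul, add_neg_cancel, h.zero]
    have h1 := ((S.continuous.tendsto _).comp (hV z)).const_smul (χ z)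
    have e1 : χ z • S (wX ev h h' Nk (fun y => V (y + z)) (dl 0)) = wX ev h h' Nk V (dl z) := by
      have h3 := wX_cov (h := h) (h' := h') (Nk := Nk) hev hT V (dl z)
      rw [hTd] at h3
      rw [h3, map_smul, smul_smul, hph, one_smul, hST]
    rw [e1] at h1
    refine h1.congr fun N => ?_
    show χ z • S (avP (ev fun y => V (y + z)) (cmul χ h.nrm) N (dl 0)) = _
    rw [avP_conj hev h hT hS, hSd, map_smul, smul_smul, hph, one_smul, hST]
  obtain ⟨B, hB⟩ := LIMB.ext_lim (fun k => LIMB.PL (ev V) (cmul χ h.nrm) k)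
    (fun k => LIMB.PL (ev V) (cmul χ h.nrm) k) ‖cmul χ h.nrm‖
    (norm_nonneg _) (fun k => LIMB.norm_PL (ev V) (cmul χ h.nrm) k)
    (fun k => LIMB.norm_PL (ev V) (cmul χ h.nrm) k)
    (Site d) dl (LIMB.dl_dense d) (fun z => ⟨wX ev h h' Nk V (dl z), hdl z, hdl z⟩)
  have hBw : B = wX ev h h' Nk V := by
    refine ContinuousLinearMap.ext_on (s := Set.range (dl (d := d))) (fun x => LIMB.dl_dense d x) ?_
    rintro _ ⟨z, rfl⟩
    exact tendsto_nhds_unique (hB (dl z)).1 (hdl z)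
  intro x
  have := (hB x).1
  rw [hBw] at this
  exact this

end Pool.Agent.H39.AC
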