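import Pool.Agent.H39.AC.Tw6

/-! # Characters average to zero on the absolutely continuous subspace -/

set_option autoImplicit false

open MeasureTheory Filter Topology Set
open scoped ENNReal NNReal InnerProductSpace ComplexConjugate

namespace Pool.Agent.H39.AC

section lim

open Pool.Agent.H5R2.NB Pool.Agent.H5R2.NBA Pool.Agent.R988.NQ

variable {d : ℕ} {c : ℝ} {ev : (Site d → ℝ) → UG (L2 (Site d))} {χ χ' : Site d → ℂ}

/-- almost sure convergence of the averages to a bounded operator -/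
theorem conv_all (hev : ∀ V, IsGrp c V (ev V)) (h : Chr χ) (h' : Chr χ')
    (hc : ∀ x, χ' x = conj (χ x)) (ν : Measure ℝ) [IsProbabilityMeasure ν]
    (hν : ∀ κ : ℝ, ν {κ} ≠ 1) :
    ∀ᵐ V ∂(PP d ν), ∃ B : L2 (Site d) →L[ℂ] L2 (Site d),
      ∀ x, Tendsto (fun N : ℕ => avP (ev V) (cmul χ h.nrm) N x) atTop (𝓝 (B x)) := by
  obtain ⟨b, b', hb, hb', hL, hlim⟩ := lim_pair hev h h' hc ν hν
  obtain ⟨a, ha, hG⟩ := hlim id tendsto_id
  have hNk : Tendsto (id ∘ a) atTop atTop := tendsto_id.comp ha.tendsto_atTop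
  have hw : Tendsto (fun N : ℕ => ∫⁻ V, ‖avP (ev V) (cmul χ h.nrm) N (dl 0) -
      wX ev h h' (id ∘ a) V (dl 0)‖ₑ ^ 2 ∂(PP d ν)) atTop (𝓝 0) := by
    refine hL.congr fun N => ?_
    refine lintegral_congr_ae ?_
    filter_upwards [hG] with V ⟨B, B', hV⟩
    have e1 : wX ev h h' (id ∘ a) V = B := wX_eq ⟨⟨B, hV.g⟩, ⟨B', hV.g'⟩⟩ hV.g
    have e2 := hV.e 0 (ContinuousLinearMap.id ℂ (L2 (Site d))) (fun ψ x => by
      show ψ x = ψ (x + -0)
      rw [neg_zero, add_zero])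
    have e3 : (fun y => V (y + 0)) = V := by funext y; simp
    rw [e3, h.zero, one_smul] at e2
    rw [e1, e2]
    rfl
  filter_upwards [quenchX hev h h' hc hNk hw] with V hV
  exact ⟨_, hV⟩

theorem conv_off (o : ℝ) (hev : ∀ ω : Site d → ℝ, IsGrp c (fun x => o + ω x) (ev ω))
    (h : Chr χ) (h' : Chr χ') (hc : ∀ x, χ' x = conj (χ x)) (ν : Measure ℝ)
    [IsProbabilityMeasure ν] (hν : ∀ κ : ℝ, ν {κ} ≠ 1) :
    ∀ᵐ ω ∂(PP d ν), ∃ B : L2 (Site d) →L[ℂ] L2 (Site d),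
      ∀ x, Tendsto (fun N : ℕ => avP (ev ω) (cmul χ h.nrm) N x) atTop (𝓝 (B x)) := by
  have hev' : ∀ V, IsGrp c V (ev (Pool.Agent.Y662.ERG.shf o V)) := by
    intro V
    have h := hev (Pool.Agent.Y662.ERG.shf o V)
    have e : (fun x => o + Pool.Agent.Y662.ERG.shf o V x) = V := by
      funext x
      unfold Pool.Agent.Y662.ERG.shf
      ring
    rwa [e] at h
  set e : (Site d → ℝ) ≃ᵐ (Site d → ℝ) := MeasurableEquiv.addLeft (fun _ : Site d => o) with he
  have hei : ∀ ω, e ω = fun x => o + ω x := fun ω => rfl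
  have hse : ∀ ω, Pool.Agent.Y662.ERG.shf o (e ω) = ω := by
    intro ω
    rw [hei]
    funext x
    unfold Pool.Agent.Y662.ERG.shf
    ring
  have hg : Measurable (fun r : ℝ => o + r) := by fun_prop
  have hpm : IsProbabilityMeasure (ν.map fun r : ℝ => o + r) :=
    Measure.isProbabilityMeasure_map hg.aemeasurable
  have hmap : (PP d ν).map e = PP d (ν.map fun r : ℝ => o + r) := by
    unfold PP
    exact Measure.infinitePi_map_pi (μ := fun _ : Site d => ν) (fun _ => hg)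
  have hne : ∀ κ : ℝ, (ν.map fun r : ℝ => o + r) {κ} ≠ 1 := by
    intro κ
    rw [Measure.map_apply hg (measurableSet_singleton κ)]
    have : (fun r : ℝ => o + r) ⁻¹' {κ} = {κ - o} := by
      ext r
      simp only [Set.mem_preimage, Set.mem_singleton_iff]
      constructor <;> intro h <;> linarith
    rw [this]
    exact hν _
  have hG := conv_all hev' h h' hc (ν.map fun r : ℝ => o + r) hne
  rw [← hmap, e.measurableEmbedding.ae_map_iff] at hG
  filter_upwards [hG] with ω hω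
  rw [hse] at hω
  exact hω

end lim

open Pool.Agent.TH980.IM Pool.Agent.H5R2 Pool.Agent.Y662.ERG
open Pool.Agent.TH980.IM.PR

variable {d : ℕ} {ev : (NB.Site d → ℝ) → NB.UG (L2 d)} {χ χ' : Sd d → ℂ}

/-- **characters average to zero on the absolutely continuous subspace**, almost surely -/
theorem tw_all (hd : 1 ≤ d) {K : ℝ} {ν : Measure ℝ} [IsProbabilityMeasure ν]
    (hK : ∀ᵐ r ∂ν, |r| ≤ K) (hν : ∀ r : ℝ, ν {r} ≠ 1)
    (hev : ∀ ω : NB.Site d → ℝ, NB.IsGrp (-1) (fun x => 2 * d + ω x) (ev ω))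
    (h : Chr χ) {x0 : Sd d} (hx : χ x0 ≠ 1) :
    ∀ᵐ ω ∂(NB.PP d ν), ∀ ψ, spm (HV_sa K ω) ψ ≪ volume →
      Tendsto (fun T : ℝ => ((T : ℂ)⁻¹) • ∫ s in (0 : ℝ)..T,
        (ev ω).U (-s) (cmul χ h.nrm ((ev ω).U s ψ))) atTop (𝓝 0) := by
  obtain ⟨a, ha, hG⟩ := tw_main hd hK hν hev h h.conj (fun _ => rfl) hx id tendsto_id
  have hNk : Tendsto (id ∘ a) atTop atTop := tendsto_id.comp ha.tendsto_atTop
  have hC := conv_off (2 * d) hev h h.conj (fun _ => rfl) ν hν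
  filter_upwards [hG, hC] with ω ⟨B, hB1, hB2⟩ ⟨B', hB'⟩ ψ hψ
  have h1 : B' ψ = 0 := by
    have h2 := (hB' ψ).comp hNk
    have h3 := tendsto_nhds_unique h2 (hB1 ψ).1
    rw [h3, hB2 ψ hψ]
  have h2 := hB' ψ
  rw [h1] at h2
  exact Pool.Agent.R988.NQ.real_times' (ev ω) (cmul χ h.nrm) ψ 0 h2

end Pool.Agent.H39.AC
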