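import Pool.Agent.H39.AC.Tw7

/-! # Residue classes and slabs -/

set_option autoImplicit false

open MeasureTheory Filter Topology
open scoped BigOperators ENNReal NNReal InnerProductSpace ComplexConjugate

namespace Pool.Agent.H39.AC

open Pool.Agent.H5R2.NB

variable {d : ℕ}

/-- multiplication by a function bounded by one -/
noncomputable def bmul (m : Site d → ℂ) (hm : ∀ x, ‖m x‖ ≤ 1) : L2 (Site d) →L[ℂ] L2 (Site d) :=
  LinearMap.mkContinuous
    { toFun := fun ψ => ⟨fun x => m x * ψ x,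
        Memℓp.mono' (lp.memℓp ψ) (fun x => by
          rw [norm_mul]
          exact mul_le_of_le_one_left (norm_nonneg _) (hm x))⟩
      map_add' := by
        intro φ ψ
        ext x
        show m x * (φ x + ψ x) = m x * φ x + m x * ψ x
        ring
      map_smul' := by
        intro r ψ
        ext x
        show m x * (r * ψ x) = r * (m x * ψ x)
        ring } 1 (by
    intro ψ
    rw [one_mul]
    refine lp.norm_mono (by norm_num) fun x => ?_
    show ‖m x * ψ x‖ ≤ ‖ψ x‖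
    rw [norm_mul]
    exact mul_le_of_le_one_left (norm_nonneg _) (hm x))

theorem bmul_apply (m : Site d → ℂ) (hm : ∀ x, ‖m x‖ ≤ 1) (ψ : L2 (Site d)) (x : Site d) :
    (bmul m hm ψ) x = m x * ψ x := rfl

theorem cmul_eq_bmul (m : Site d → ℂ) (hm : ∀ x, ‖m x‖ = 1) (ψ : L2 (Site d)) :
    cmul m hm ψ = bmul m (fun x => (hm x).le) ψ := by
  ext x
  rfl

theorem inner_bmul2 (m : Site d → ℂ) (hm : ∀ x, ‖m x‖ ≤ 1) (w f : L2 (Site d)) :
    ⟪w, bmul m hm f⟫_ℂ = ∑' x, m x * (conj (w x) * f x) := by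
  rw [lp.inner_eq_tsum]
  refine tsum_congr fun x => ?_
  rw [bmul_apply, RCLike.inner_apply]
  ring

theorem summ (f : L2 (Site d)) : Summable fun x => ‖f x‖ ^ 2 := by
  have h := lp.summable_inner (𝕜 := ℂ) f f
  have h2 : Summable fun x => ‖(⟪f x, f x⟫_ℂ : ℂ)‖ := h.norm
  refine h2.congr fun x => ?_
  rw [inner_self_eq_norm_sq_to_K]
  simp

theorem inner_bmul (m : Site d → ℂ) (hm : ∀ x, ‖m x‖ ≤ 1) (f : L2 (Site d)) :
    ⟪f, bmul m hm f⟫_ℂ = ∑' x, m x * ((‖f x‖ ^ 2 : ℝ) : ℂ) := by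
  rw [inner_bmul2]
  refine tsum_congr fun x => ?_
  rw [mul_comm (conj (f x)), Complex.mul_conj, Complex.normSq_eq_norm_sq]

theorem summ_mul (m : Site d → ℂ) (hm : ∀ x, ‖m x‖ ≤ 1) (f : L2 (Site d)) :
    Summable fun x => m x * ((‖f x‖ ^ 2 : ℝ) : ℂ) := by
  refine Summable.of_norm_bounded (summ f) fun x => ?_
  rw [norm_mul, Complex.norm_real, Real.norm_of_nonneg (sq_nonneg _)]
  exact mul_le_of_le_one_left (sq_nonneg _) (hm x)

/-- the mass in `A` -/
noncomputable def mass (A : Set (Site d)) (f : L2 (Site d)) : ℝ :=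
  ∑' x, A.indicator (fun x => ‖f x‖ ^ 2) x

open Classical in
theorem ind_le (A : Set (Site d)) : ∀ x, ‖A.indicator (fun _ => (1 : ℂ)) x‖ ≤ 1 := fun x => by
  by_cases h : x ∈ A
  · rw [Set.indicator_of_mem h, norm_one]
  · rw [Set.indicator_of_notMem h, norm_zero]
    exact zero_le_one

theorem mass_eq (A : Set (Site d)) (f : L2 (Site d)) :
    ((mass A f : ℝ) : ℂ) = ⟪f, bmul (A.indicator fun _ => (1 : ℂ)) (ind_le A) f⟫_ℂ := by
  rw [inner_bmul]
  unfold mass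
  rw [Complex.ofReal_tsum]
  refine tsum_congr fun x => ?_
  by_cases h : x ∈ A
  · rw [Set.indicator_of_mem h, Set.indicator_of_mem h, one_mul]
  · rw [Set.indicator_of_notMem h, Set.indicator_of_notMem h, zero_mul, Complex.ofReal_zero]

/-- characters -/
noncomputable def tch (t : Fin d → ℝ) (x : Site d) : ℂ :=
  Complex.exp (((∑ i, t i * (x i : ℝ) : ℝ) : ℂ) * Complex.I)

theorem chr_tch (t : Fin d → ℝ) : Chr (tch t) := by
  refine ⟨fun x y => ?_, fun x => Complex.norm_exp_ofReal_mul_I _⟩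
  unfold tch
  rw [← Complex.exp_add, ← add_mul, ← Complex.ofReal_add]
  congr 3
  rw [← Finset.sum_add_distrib]
  refine Finset.sum_congr rfl fun i _ => ?_
  have : ((x + y) i : ℝ) = (x i : ℝ) + (y i : ℝ) := by
    show (((x i + y i : ℤ)) : ℝ) = _
    push_cast
    rfl
  rw [this]
  ring

theorem tch_single (t : Fin d → ℝ) (i : Fin d) :
    tch t (Pi.single i 1) = Complex.exp ((t i : ℂ) * Complex.I) := by
  unfold tch
  congr 3
  rw [Finset.sum_eq_single i]
  · simp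
  · intro j _ hj
    rw [Pi.single_eq_of_ne hj]
    simp
  · intro h
    exact absurd (Finset.mem_univ i) h

theorem cont_inner_U (W : UG (L2 (Site d))) (A : L2 (Site d) →L[ℂ] L2 (Site d))
    (w ψ : L2 (Site d)) : Continuous fun s => ⟪W.U s w, A (W.U s ψ)⟫_ℂ :=
  (W.cont' w).inner (A.continuous.comp (W.cont' ψ))

theorem inner_UU (W : UG (L2 (Site d))) (s : ℝ) (w ψ : L2 (Site d)) :
    ⟪W.U s w, W.U s ψ⟫_ℂ = ⟪w, ψ⟫_ℂ := by
  have h := STAT.inner_adj W s w (W.U s ψ)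
  have h2 : ∀ t (x y : L2 (Site d)), ⟪x, W.U t y⟫_ℂ = ⟪W.U (-t) x, y⟫_ℂ := fun t x y =>
    STAT.inner_adj W t x y
  rw [h2, ← W.add', neg_add_cancel, W.zero']

/-- the weak form of the average -/
theorem avg_inner (W : UG (L2 (Site d))) (A : L2 (Site d) →L[ℂ] L2 (Site d))
    {ψ y : L2 (Site d)}
    (h : Tendsto (fun T : ℝ => ((T : ℂ)⁻¹) • ∫ s in (0 : ℝ)..T, W.U (-s) (A (W.U s ψ))) atTop
      (𝓝 y)) (w : L2 (Site d)) :
    Tendsto (fun T : ℝ => ((T : ℂ)⁻¹) * ∫ s in (0 : ℝ)..T, ⟪W.U s w, A (W.U s ψ)⟫_ℂ) atTop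
      (𝓝 ⟪w, y⟫_ℂ) := by
  have h1 : Tendsto (fun T : ℝ => ⟪w, ((T : ℂ)⁻¹) • ∫ s in (0 : ℝ)..T,
      W.U (-s) (A (W.U s ψ))⟫_ℂ) atTop (𝓝 ⟪w, y⟫_ℂ) := tendsto_const_nhds.inner h
  refine h1.congr fun T => ?_
  rw [inner_smul_right]
  congr 1
  have := (innerSL ℂ w).intervalIntegral_comp_comm
    ((BP.g_cont W A ψ).intervalIntegrable (μ := volume) 0 T)
  have e : ∀ s : ℝ, (innerSL ℂ w) (BP.g W A ψ s) = ⟪W.U s w, A (W.U s ψ)⟫_ℂ := by
    intro s
    show ⟪w, W.U (-s) (A (W.U s ψ))⟫_ℂ = _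
    have h2 := STAT.inner_adj W (-s) w (A (W.U s ψ))
    rw [neg_neg] at h2
    exact h2
  simp_rw [e] at this
  exact this.symm

/-- the character `tch t` averages to zero on `ψ` -/
def Van (W : UG (L2 (Site d))) (ψ : L2 (Site d)) (t : Fin d → ℝ) : Prop :=
  Tendsto (fun T : ℝ => ((T : ℂ)⁻¹) • ∫ s in (0 : ℝ)..T,
    W.U (-s) (cmul (tch t) (chr_tch t).nrm (W.U s ψ))) atTop (𝓝 0)

/-! ### residue classes -/

theorem root_sum (N : ℕ) (hN : 0 < N) (m : ℤ) :
    ∑ k : Fin N, Complex.exp (((2 * Real.pi * (k : ℕ) / N * m : ℝ) : ℂ) * Complex.I) =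
      if (N : ℤ) ∣ m then (N : ℂ) else 0 := by
  set ζ : ℂ := Complex.exp (((2 * Real.pi * m / N : ℝ) : ℂ) * Complex.I) with hζ
  have hNR : (N : ℝ) ≠ 0 := by exact_mod_cast hN.ne'
  have hNC : (N : ℂ) ≠ 0 := by exact_mod_cast hN.ne'
  have e1 : ∀ k : Fin N, Complex.exp (((2 * Real.pi * (k : ℕ) / N * m : ℝ) : ℂ) * Complex.I) =
      ζ ^ (k : ℕ) := by
    intro k
    rw [hζ, ← Complex.exp_nat_mul]
    congr 1
    push_cast
    ring
  simp_rw [e1]
  rw [Fin.sum_univ_eq_sum_range (fun k => ζ ^ k) N]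
  have hζN : ζ ^ N = 1 := by
    rw [hζ, ← Complex.exp_nat_mul, Complex.exp_eq_one_iff]
    refine ⟨m, ?_⟩
    push_cast
    field_simp
  by_cases h : (N : ℤ) ∣ m
  · rw [if_pos h]
    obtain ⟨q, hq⟩ := h
    have hζ1 : ζ = 1 := by
      rw [hζ, Complex.exp_eq_one_iff]
      refine ⟨q, ?_⟩
      rw [hq]
      push_cast
      field_simp
    rw [hζ1]
    simp
  · rw [if_neg h]
    have hζ1 : ζ ≠ 1 := by
      intro h1
      rw [hζ, Complex.exp_eq_one_iff] at h1
      obtain ⟨q, hq⟩ := h1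
      apply h
      refine ⟨q, ?_⟩
      have h2 : ((2 * Real.pi * m / N : ℝ) : ℂ) = q * (2 * Real.pi) := by
        have h3 : ((2 * Real.pi * m / N : ℝ) : ℂ) * Complex.I = (q * (2 * Real.pi)) * Complex.I := by
          rw [hq]; ring
        exact mul_right_cancel₀ Complex.I_ne_zero h3
      have h4 : 2 * Real.pi * m / N = q * (2 * Real.pi) := by exact_mod_cast h2
      have hpi := Real.pi_pos
      have h5 : (m : ℝ) = N * q := by
        field_simp at h4
        linarith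
      exact_mod_cast h5
    have h1 := geom_sum_eq hζ1 N
    rw [h1, hζN, sub_self, zero_div]

/-- the frequencies of the residue classes -/
noncomputable def tk (N : ℕ) (k : Fin d → Fin N) : Fin d → ℝ :=
  fun i => 2 * Real.pi * ((k i : ℕ) : ℝ) / N

/-- the residue class of `a` modulo `N` -/
def res (N : ℕ) (a : Site d) : Set (Site d) := {x | ∀ i, (N : ℤ) ∣ x i - a i}

theorem res_sum (N : ℕ) (hN : 0 < N) (a x : Site d) :
    (res N a).indicator (fun _ => (1 : ℂ)) x =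
      ((N : ℂ) ^ d)⁻¹ * ∑ k : Fin d → Fin N, tch (tk N k) (-a) * tch (tk N k) x := by
  have hNC : (N : ℂ) ≠ 0 := by exact_mod_cast hN.ne'
  have e1 : ∀ k : Fin d → Fin N, tch (tk N k) (-a) * tch (tk N k) x =
      ∏ i, Complex.exp (((2 * Real.pi * ((k i : ℕ)) / N * ((x i - a i : ℤ)) : ℝ) : ℂ) *
        Complex.I) := by
    intro k
    rw [← (chr_tch _).mul, ← Complex.exp_sum]
    unfold tch
    congr 1
    rw [← Finset.sum_mul, ← Complex.ofReal_sum]
    congr 2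
    refine Finset.sum_congr rfl fun i _ => ?_
    have : (((-a + x) i : ℤ) : ℝ) = ((x i - a i : ℤ) : ℝ) := by
      congr 1
      show -a i + x i = _
      ring
    rw [this]
    rfl
  simp_rw [e1]
  have e2 := (Finset.prod_univ_sum (fun _ : Fin d => (Finset.univ : Finset (Fin N)))
    (fun i k => Complex.exp (((2 * Real.pi * ((k : ℕ)) / N * ((x i - a i : ℤ)) : ℝ) : ℂ) *
        Complex.I)))
  rw [Fintype.piFinset_univ] at e2
  rw [← e2]
  simp_rw [root_sum N hN]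
  by_cases h : x ∈ res N a
  · rw [Set.indicator_of_mem h]
    have h2 : ∀ i, (N : ℤ) ∣ x i - a i := h
    simp only [h2, if_true]
    rw [Finset.prod_const, Finset.card_univ, Fintype.card_fin, inv_mul_cancel₀ (pow_ne_zero _ hNC)]
  · rw [Set.indicator_of_notMem h]
    have h2 : ¬ ∀ i, (N : ℤ) ∣ x i - a i := h
    push Not at h2
    obtain ⟨i, hi⟩ := h2
    rw [Finset.prod_eq_zero (Finset.mem_univ i) (if_neg hi), mul_zero]

theorem mass_res (N : ℕ) (hN : 0 < N) (a : Site d) (f : L2 (Site d)) :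
    ((mass (res N a) f : ℝ) : ℂ) = ((N : ℂ) ^ d)⁻¹ * ∑ k : Fin d → Fin N,
      tch (tk N k) (-a) * ⟪f, cmul (tch (tk N k)) (chr_tch _).nrm f⟫_ℂ := by
  rw [mass_eq, inner_bmul]
  simp_rw [cmul_eq_bmul, inner_bmul]
  have e : ∀ x, (res N a).indicator (fun _ => (1 : ℂ)) x * ((‖f x‖ ^ 2 : ℝ) : ℂ) =
      ∑ k : Fin d → Fin N, ((N : ℂ) ^ d)⁻¹ * (tch (tk N k) (-a) *
        (tch (tk N k) x * ((‖f x‖ ^ 2 : ℝ) : ℂ))) := by
    intro x
    rw [res_sum N hN, Finset.mul_sum, Finset.sum_mul]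
    refine Finset.sum_congr rfl fun k _ => ?_
    ring
  simp_rw [e]
  rw [Summable.tsum_finsetSum]
  · rw [Finset.mul_sum]
    refine Finset.sum_congr rfl fun k _ => ?_
    rw [tsum_mul_left, tsum_mul_left]
  · intro k _
    exact ((summ_mul _ (fun x => ((chr_tch _).nrm x).le) f).mul_left _).mul_left _

theorem tch_zero_fun (x : Site d) : tch (fun _ : Fin d => (0 : ℝ)) x = 1 := by
  unfold tch
  simp

/-- residue classes have equal time fractions -/
theorem residue (W : UG (L2 (Site d))) (ψ : L2 (Site d)) (N : ℕ) (hN : 0 < N) (a : Site d)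
    (H : ∀ k : Fin d → Fin N, (∃ i, (k i : ℕ) ≠ 0) → Van W ψ (tk N k)) :
    Tendsto (fun T : ℝ => T⁻¹ * ∫ s in (0 : ℝ)..T, mass (res N a) (W.U s ψ)) atTop
      (𝓝 (‖ψ‖ ^ 2 / (N : ℝ) ^ d)) := by
  have hNC : (N : ℂ) ≠ 0 := by exact_mod_cast hN.ne'
  have h1 : ∀ k : Fin d → Fin N, Tendsto (fun T : ℝ => (T : ℂ)⁻¹ * ∫ s in (0 : ℝ)..T,
      ⟪W.U s ψ, cmul (tch (tk N k)) (chr_tch _).nrm (W.U s ψ)⟫_ℂ) atTop
        (𝓝 (if ∃ i, (k i : ℕ) ≠ 0 then 0 else ((‖ψ‖ ^ 2 : ℝ) : ℂ))) := by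
    intro k
    by_cases hk : ∃ i, (k i : ℕ) ≠ 0
    · rw [if_pos hk]
      have := avg_inner W _ (H k hk) ψ
      rw [inner_zero_right] at this
      exact this
    · rw [if_neg hk]
      push Not at hk
      refine Tendsto.congr' ?_ tendsto_const_nhds
      filter_upwards [eventually_gt_atTop (0 : ℝ)] with T hT
      have e1 : ∀ s : ℝ, ⟪W.U s ψ, cmul (tch (tk N k)) (chr_tch _).nrm (W.U s ψ)⟫_ℂ =
          ((‖ψ‖ ^ 2 : ℝ) : ℂ) := by
        intro s
        have e2 : cmul (tch (tk N k)) (chr_tch _).nrm (W.U s ψ) = W.U s ψ := by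
          ext x
          rw [cmul_apply]
          have e3 : tk N k = fun _ => (0 : ℝ) := by
            funext i
            unfold tk
            rw [hk i]
            simp
          rw [e3, tch_zero_fun, one_mul]
        rw [e2, inner_UU, inner_self_eq_norm_sq_to_K]
        push_cast
        rfl
      simp_rw [e1]
      rw [intervalIntegral.integral_const, sub_zero, Complex.real_smul, ← mul_assoc,
        inv_mul_cancel₀ (by exact_mod_cast hT.ne'), one_mul]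
  have h2 := (tendsto_finsetSum Finset.univ fun (k : Fin d → Fin N) _ =>
    (h1 k).const_mul (tch (tk N k) (-a))).const_mul (((N : ℂ) ^ d)⁻¹)
  have e5 : ((N : ℂ) ^ d)⁻¹ * ∑ k : Fin d → Fin N, tch (tk N k) (-a) *
      (if ∃ i, (k i : ℕ) ≠ 0 then 0 else ((‖ψ‖ ^ 2 : ℝ) : ℂ)) =
        ((‖ψ‖ ^ 2 / (N : ℝ) ^ d : ℝ) : ℂ) := by
    rw [Finset.sum_eq_single (fun _ => (⟨0, hN⟩ : Fin N))]
    · have e6 : ¬ ∃ i : Fin d, ((fun _ => (⟨0, hN⟩ : Fin N)) i : ℕ) ≠ 0 := by simp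
      rw [if_neg e6]
      have e3 : tk N (fun _ : Fin d => (⟨0, hN⟩ : Fin N)) = fun _ => (0 : ℝ) := by
        funext i
        unfold tk
        simp
      rw [e3, tch_zero_fun, one_mul]
      push_cast
      rw [div_eq_mul_inv, mul_comm]
    · intro k _ hk
      have e6 : ∃ i, (k i : ℕ) ≠ 0 := by
        by_contra hcon
        push Not at hcon
        apply hk
        funext i
        apply Fin.ext
        exact hcon i
      rw [if_pos e6, mul_zero]
    · intro h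
      exact absurd (Finset.mem_univ _) h
  rw [e5] at h2
  have h3 := (Complex.continuous_re.tendsto _).comp h2
  rw [Complex.ofReal_re] at h3
  refine h3.congr fun T => ?_
  show ((((N : ℂ) ^ d)⁻¹ * ∑ k : Fin d → Fin N, tch (tk N k) (-a) *
    ((T : ℂ)⁻¹ * ∫ s in (0 : ℝ)..T,
      ⟪W.U s ψ, cmul (tch (tk N k)) (chr_tch _).nrm (W.U s ψ)⟫_ℂ))).re = _
  have e7 : ((T⁻¹ * ∫ s in (0 : ℝ)..T, mass (res N a) (W.U s ψ) : ℝ) : ℂ) =
      ((N : ℂ) ^ d)⁻¹ * ∑ k : Fin d → Fin N, tch (tk N k) (-a) *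
    ((T : ℂ)⁻¹ * ∫ s in (0 : ℝ)..T,
      ⟪W.U s ψ, cmul (tch (tk N k)) (chr_tch _).nrm (W.U s ψ)⟫_ℂ) := by
    rw [Complex.ofReal_mul, ← intervalIntegral.integral_ofReal]
    simp_rw [mass_res N hN]
    rw [intervalIntegral.integral_const_mul, intervalIntegral.integral_finsetSum]
    · rw [Finset.mul_sum, Finset.mul_sum, Finset.mul_sum]
      refine Finset.sum_congr rfl fun k _ => ?_
      rw [intervalIntegral.integral_const_mul, Complex.ofReal_inv]
      ring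
    · intro k _
      exact ((cont_inner_U W _ ψ ψ).const_mul _).intervalIntegrable _ _ 
  rw [← e7, Complex.ofReal_re]

end Pool.Agent.H39.AC
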