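import Pool.Agent.H39.AC.Tw8

/-! # Slabs -/

set_option autoImplicit false

open MeasureTheory Filter Topology
open scoped BigOperators ENNReal NNReal InnerProductSpace ComplexConjugate

namespace Pool.Agent.H39.AC

open Pool.Agent.H5R2.NB

variable {d : ℕ}

/-- a slab -/
def slab (n : Fin d → ℝ) (c R : ℝ) : Set (Site d) := {x | |∑ i, n i * (x i : ℝ) - c| ≤ R}

theorem mass_le {A : Set (Site d)} {f g : L2 (Site d)} (C : ℝ) (hC : 0 ≤ C)
    (h : ∀ x ∈ A, ‖f x‖ ^ 2 ≤ C * ‖g x‖ ^ 2) : mass A f ≤ C * ‖g‖ ^ 2 := by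
  have hg : ‖g‖ ^ 2 = ∑' x, ‖g x‖ ^ 2 := by
    have h1 : (⟪g, g⟫_ℂ : ℂ) = ∑' x, ((‖g x‖ ^ 2 : ℝ) : ℂ) := by
      rw [lp.inner_eq_tsum]
      refine tsum_congr fun x => ?_
      rw [inner_self_eq_norm_sq_to_K]
      push_cast
      rfl
    have h2 : ((‖g‖ ^ 2 : ℝ) : ℂ) = ((∑' x, ‖g x‖ ^ 2 : ℝ) : ℂ) := by
      rw [Complex.ofReal_tsum, ← h1, inner_self_eq_norm_sq_to_K]
      push_cast
      rfl
    exact Complex.ofReal_injective h2
  rw [hg, ← tsum_mul_left]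
  unfold mass
  have hs : Summable fun x => A.indicator (fun x => ‖f x‖ ^ 2) x := (summ f).indicator A
  refine hs.tsum_le_tsum (fun x => ?_) ((summ g).mul_left C)
  by_cases hx : x ∈ A
  · rw [Set.indicator_of_mem hx]
    exact h x hx
  · rw [Set.indicator_of_notMem hx]
    positivity

theorem mass_mono {A B : Set (Site d)} (h : A ⊆ B) (f : L2 (Site d)) : mass A f ≤ mass B f := by
  unfold mass
  refine ((summ f).indicator A).tsum_le_tsum (fun x => ?_) ((summ f).indicator B)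
  exact Set.indicator_le_indicator_of_subset h (fun x => sq_nonneg _) x

theorem cont_mass (W : UG (L2 (Site d))) (A : Set (Site d)) (ψ : L2 (Site d)) :
    Continuous fun s => mass A (W.U s ψ) := by
  have h := Complex.continuous_re.comp (cont_inner_U W
    (bmul (A.indicator fun _ => (1 : ℂ)) (ind_le A)) ψ ψ)
  refine h.congr fun s => ?_
  show (⟪W.U s ψ, bmul (A.indicator fun _ => (1 : ℂ)) (ind_le A) (W.U s ψ)⟫_ℂ).re = _
  rw [← mass_eq, Complex.ofReal_re]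

theorem cross (t t' : Fin d → ℝ) (f : L2 (Site d)) :
    ⟪cmul (tch t) (chr_tch t).nrm f, cmul (tch t') (chr_tch t').nrm f⟫_ℂ =
      ⟪f, cmul (tch (fun i => t' i - t i)) (chr_tch _).nrm f⟫_ℂ := by
  rw [lp.inner_eq_tsum, lp.inner_eq_tsum]
  refine tsum_congr fun x => ?_
  rw [cmul_apply, cmul_apply, cmul_apply, RCLike.inner_apply, RCLike.inner_apply, map_mul]
  have e : tch (fun i => t' i - t i) x = tch t' x * conj (tch t x) := by
    unfold tch
    rw [← Complex.exp_conj, ← Complex.exp_add]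
    congr 1
    rw [map_mul, Complex.conj_I, Complex.conj_ofReal]
    have : (∑ i, (t' i - t i) * (x i : ℝ)) = (∑ i, t' i * (x i : ℝ)) - ∑ i, t i * (x i : ℝ) := by
      rw [← Finset.sum_sub_distrib]
      refine Finset.sum_congr rfl fun i _ => ?_
      ring
    rw [this]
    push_cast
    ring
  rw [e]
  ring

/-- the frequencies -/
noncomputable def ts (n : Fin d → ℝ) (τ : ℝ) (j : ℝ) : Fin d → ℝ := fun i => j * τ * n i

theorem re_big (τ y : ℝ) (M : ℕ) (h : |τ * y| * M ≤ 1 / 2) :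
    (M : ℝ) ^ 2 ≤ 2 * ‖∑ j ∈ Finset.range M, Complex.exp (((j * τ * y : ℝ) : ℂ) * Complex.I)‖ ^ 2 := by
  have h1 : (7 / 8 : ℝ) * M ≤
      (∑ j ∈ Finset.range M, Complex.exp (((j * τ * y : ℝ) : ℂ) * Complex.I)).re := by
    rw [Complex.re_sum]
    have h2 : ∀ j ∈ Finset.range M, (7 / 8 : ℝ) ≤
        (Complex.exp (((j * τ * y : ℝ) : ℂ) * Complex.I)).re := by
      intro j hj
      rw [Complex.exp_ofReal_mul_I_re]
      have h3 := Real.one_sub_sq_div_two_le_cos (x := j * τ * y)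
      have h4 : |j * τ * y| ≤ 1 / 2 := by
        rw [mul_assoc, abs_mul, Nat.abs_cast, mul_comm]
        refine le_trans ?_ h
        refine mul_le_mul_of_nonneg_left ?_ (abs_nonneg _)
        exact_mod_cast (Finset.mem_range.1 hj).le
      have h5 : (j * τ * y) ^ 2 ≤ (1 / 2) ^ 2 := sq_le_sq' (by linarith [(abs_le.1 h4).1])
        (abs_le.1 h4).2
      linarith
    have h6 := Finset.card_nsmul_le_sum (Finset.range M) _ _ h2
    rw [Finset.card_range, nsmul_eq_mul] at h6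
    linarith
  have h2 := Complex.re_le_norm
    (∑ j ∈ Finset.range M, Complex.exp (((j * τ * y : ℝ) : ℂ) * Complex.I))
  have h3 : (0 : ℝ) ≤ M := Nat.cast_nonneg M
  have h4 : (7 / 8 : ℝ) * M ≤
    ‖∑ j ∈ Finset.range M, Complex.exp (((j * τ * y : ℝ) : ℂ) * Complex.I)‖ := h1.trans h2
  nlinarith

/-- the trigonometric sum applied to `f` -/
noncomputable def gs (n : Fin d → ℝ) (τ c : ℝ) (M : ℕ) (f : L2 (Site d)) : L2 (Site d) :=
  ∑ j ∈ Finset.range M, Complex.exp (((-(j * τ * c) : ℝ) : ℂ) * Complex.I) •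
    cmul (tch (ts n τ j)) (chr_tch _).nrm f

theorem gs_apply (n : Fin d → ℝ) (τ c : ℝ) (M : ℕ) (f : L2 (Site d)) (x : Site d) :
    (gs n τ c M f) x = (∑ j ∈ Finset.range M,
      Complex.exp (((j * τ * (∑ i, n i * (x i : ℝ) - c) : ℝ) : ℂ) * Complex.I)) * f x := by
  have h1 : (gs n τ c M f) x = ∑ j ∈ Finset.range M,
      (Complex.exp (((-(j * τ * c) : ℝ) : ℂ) * Complex.I) •
        cmul (tch (ts n τ j)) (chr_tch _).nrm f) x := by
    unfold gs
    rw [lp.coeFn_sum, Finset.sum_apply]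
  rw [h1, Finset.sum_mul]
  refine Finset.sum_congr rfl fun j _ => ?_
  show Complex.exp (((-(j * τ * c) : ℝ) : ℂ) * Complex.I) * (tch (ts n τ j) x * f x) = _
  rw [← mul_assoc]
  congr 1
  unfold tch ts
  rw [← Complex.exp_add, ← add_mul, ← Complex.ofReal_add]
  congr 3
  have : ∑ i, (j : ℝ) * τ * n i * (x i : ℝ) = (j : ℝ) * τ * ∑ i, n i * (x i : ℝ) := by
    rw [Finset.mul_sum]
    refine Finset.sum_congr rfl fun i _ => ?_
    ring
  rw [this]
  ring

theorem mass_gs (n : Fin d → ℝ) (τ c R : ℝ) (M : ℕ) (hM : 0 < M) (hτ : |τ| * R * M ≤ 1 / 2)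
    (f : L2 (Site d)) : mass (slab n c R) f ≤ (2 / (M : ℝ) ^ 2) * ‖gs n τ c M f‖ ^ 2 := by
  have hMR : (0 : ℝ) < M := by exact_mod_cast hM
  refine mass_le _ (by positivity) fun x hx => ?_
  rw [gs_apply, norm_mul, mul_pow]
  have h1 : |∑ i, n i * (x i : ℝ) - c| ≤ R := hx
  have h2 := re_big τ (∑ i, n i * (x i : ℝ) - c) M (by
    rw [abs_mul]
    refine le_trans ?_ hτ
    gcongr)
  have h3 : 1 ≤ (2 / (M : ℝ) ^ 2) * ‖∑ j ∈ Finset.range M,
      Complex.exp (((j * τ * (∑ i, n i * (x i : ℝ) - c) : ℝ) : ℂ) * Complex.I)‖ ^ 2 := by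
    rw [div_mul_eq_mul_div, le_div_iff₀ (by positivity), one_mul]
    exact h2
  calc ‖f x‖ ^ 2 = 1 * ‖f x‖ ^ 2 := (one_mul _).symm
    _ ≤ _ := mul_le_mul_of_nonneg_right h3 (sq_nonneg _)
    _ = _ := by ring

theorem norm_gs (n : Fin d → ℝ) (τ c : ℝ) (M : ℕ) (f : L2 (Site d)) :
    ((‖gs n τ c M f‖ ^ 2 : ℝ) : ℂ) = ∑ j ∈ Finset.range M, ∑ j' ∈ Finset.range M,
      Complex.exp ((((j : ℝ) - j') * τ * c : ℝ) * Complex.I) *
        ⟪f, cmul (tch (fun i => ts n τ j' i - ts n τ j i)) (chr_tch _).nrm f⟫_ℂ := by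
  have h1 : ((‖gs n τ c M f‖ ^ 2 : ℝ) : ℂ) = ⟪gs n τ c M f, gs n τ c M f⟫_ℂ := by
    rw [inner_self_eq_norm_sq_to_K]
    push_cast
    rfl
  rw [h1]
  conv_lhs => unfold gs
  rw [sum_inner]
  refine Finset.sum_congr rfl fun j _ => ?_
  rw [inner_sum]
  refine Finset.sum_congr rfl fun j' _ => ?_
  rw [inner_smul_left, inner_smul_right, cross, ← mul_assoc, ← Complex.exp_conj,
    ← Complex.exp_add]
  congr 2
  rw [map_mul, Complex.conj_I, Complex.conj_ofReal]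
  push_cast
  ring

theorem slab_avg (W : UG (L2 (Site d))) (ψ : L2 (Site d)) (n : Fin d → ℝ) (τ c R : ℝ) (M : ℕ)
    (hM : 0 < M) (hτ : |τ| * R * M ≤ 1 / 2) (T : ℝ) (hT : 0 < T) :
    T⁻¹ * ∫ s in (0 : ℝ)..T, mass (slab n c R) (W.U s ψ) ≤
      (2 / (M : ℝ) ^ 2) * ∑ j ∈ Finset.range M, ∑ j' ∈ Finset.range M,
        ‖(T : ℂ)⁻¹ * ∫ s in (0 : ℝ)..T, ⟪W.U s ψ,
          cmul (tch (fun i => ts n τ j' i - ts n τ j i)) (chr_tch _).nrm (W.U s ψ)⟫_ℂ‖ := by
  have hMR : (0 : ℝ) < M := by exact_mod_cast hM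
  have hcg : Continuous fun s => ‖gs n τ c M (W.U s ψ)‖ ^ 2 := by
    have : Continuous fun f => gs n τ c M f := by
      unfold gs
      exact continuous_finsetSum _ fun j _ =>
        (cmul (tch (ts n τ j)) (chr_tch _).nrm).continuous.const_smul
          (Complex.exp (((-(j * τ * c) : ℝ) : ℂ) * Complex.I))
    exact (this.comp (W.cont' ψ)).norm.pow 2
  have h1 : ∫ s in (0 : ℝ)..T, mass (slab n c R) (W.U s ψ) ≤
      ∫ s in (0 : ℝ)..T, (2 / (M : ℝ) ^ 2) * ‖gs n τ c M (W.U s ψ)‖ ^ 2 := by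
    refine intervalIntegral.integral_mono_on hT.le
      ((cont_mass W _ ψ).intervalIntegrable _ _) ((hcg.const_mul _).intervalIntegrable _ _)
      fun s _ => ?_
    exact mass_gs n τ c R M hM hτ _
  rw [intervalIntegral.integral_const_mul] at h1
  have h2 : T⁻¹ * ∫ s in (0 : ℝ)..T, ‖gs n τ c M (W.U s ψ)‖ ^ 2 ≤
      ∑ j ∈ Finset.range M, ∑ j' ∈ Finset.range M,
        ‖(T : ℂ)⁻¹ * ∫ s in (0 : ℝ)..T, ⟪W.U s ψ,
          cmul (tch (fun i => ts n τ j' i - ts n τ j i)) (chr_tch _).nrm (W.U s ψ)⟫_ℂ‖ := by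
    have e1 : ((T⁻¹ * ∫ s in (0 : ℝ)..T, ‖gs n τ c M (W.U s ψ)‖ ^ 2 : ℝ) : ℂ) =
        ∑ j ∈ Finset.range M, ∑ j' ∈ Finset.range M,
          Complex.exp ((((j : ℝ) - j') * τ * c : ℝ) * Complex.I) *
          ((T : ℂ)⁻¹ * ∫ s in (0 : ℝ)..T, ⟪W.U s ψ,
          cmul (tch (fun i => ts n τ j' i - ts n τ j i)) (chr_tch _).nrm (W.U s ψ)⟫_ℂ) := by
      rw [Complex.ofReal_mul, ← intervalIntegral.integral_ofReal]
      simp_rw [norm_gs]
      rw [intervalIntegral.integral_finsetSum]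
      · rw [Finset.mul_sum]
        refine Finset.sum_congr rfl fun j _ => ?_
        rw [intervalIntegral.integral_finsetSum]
        · rw [Finset.mul_sum]
          refine Finset.sum_congr rfl fun j' _ => ?_
          rw [intervalIntegral.integral_const_mul, Complex.ofReal_inv]
          ring
        · intro j' _
          exact ((cont_inner_U W _ ψ ψ).const_mul _).intervalIntegrable _ _
      · intro j _
        refine Continuous.intervalIntegrable ?_ _ _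
        exact continuous_finsetSum _ fun j' _ => (cont_inner_U W _ ψ ψ).const_mul _
    have e2 : T⁻¹ * ∫ s in (0 : ℝ)..T, ‖gs n τ c M (W.U s ψ)‖ ^ 2 ≤
        ‖((T⁻¹ * ∫ s in (0 : ℝ)..T, ‖gs n τ c M (W.U s ψ)‖ ^ 2 : ℝ) : ℂ)‖ := by
      rw [Complex.norm_real]
      exact le_abs_self _
    refine e2.trans ?_
    rw [e1]
    refine (norm_sum_le _ _).trans (Finset.sum_le_sum fun j _ => ?_)
    refine (norm_sum_le _ _).trans (Finset.sum_le_sum fun j' _ => ?_)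
    rw [norm_mul, Complex.norm_exp_ofReal_mul_I, one_mul]
  calc T⁻¹ * ∫ s in (0 : ℝ)..T, mass (slab n c R) (W.U s ψ)
      ≤ T⁻¹ * ((2 / (M : ℝ) ^ 2) * ∫ s in (0 : ℝ)..T, ‖gs n τ c M (W.U s ψ)‖ ^ 2) :=
        mul_le_mul_of_nonneg_left h1 (by positivity)
    _ = (2 / (M : ℝ) ^ 2) * (T⁻¹ * ∫ s in (0 : ℝ)..T, ‖gs n τ c M (W.U s ψ)‖ ^ 2) := by ring
    _ ≤ _ := mul_le_mul_of_nonneg_left h2 (by positivity)

/-- the spacing -/
noncomputable def tau (n : Fin d → ℝ) (i0 : Fin d) (R : ℕ) (M : ℕ) : ℝ :=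
  1 / (2 * ((M : ℝ) + 1) * ((R : ℝ) + 1) * (|n i0| + 1))

theorem tau_pos (n : Fin d → ℝ) (i0 : Fin d) (R : ℕ) (M : ℕ) : 0 < tau n i0 R M := by
  unfold tau
  positivity

theorem tau_small (n : Fin d → ℝ) (i0 : Fin d) (R : ℕ) (M : ℕ) :
    |tau n i0 R M| * R * M ≤ 1 / 2 := by
  rw [abs_of_pos (tau_pos n i0 R M)]
  unfold tau
  rw [div_mul_eq_mul_div, div_mul_eq_mul_div, div_le_div_iff₀ (by positivity) (by norm_num)]
  have h1 := abs_nonneg (n i0)
  have h2 : (0 : ℝ) ≤ M := Nat.cast_nonneg M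
  have h3 : (0 : ℝ) ≤ R := Nat.cast_nonneg R
  have h4 : (R : ℝ) * M ≤ (M + 1) * (R + 1) := by nlinarith
  have h5 : (M + 1 : ℝ) * (R + 1) ≤ (M + 1) * (R + 1) * (|n i0| + 1) := by
    have : (0 : ℝ) ≤ (M + 1) * (R + 1) := by positivity
    nlinarith
  nlinarith

theorem tau_phase (n : Fin d → ℝ) (i0 : Fin d) (hn : n i0 ≠ 0) (R : ℕ) (M : ℕ) (k : ℤ)
    (hk : k ≠ 0) (hkM : |k| ≤ M) :
    tch (fun i => (k : ℝ) * tau n i0 R M * n i) (Pi.single i0 1) ≠ 1 := by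
  rw [tch_single]
  intro h
  rw [Complex.exp_eq_one_iff] at h
  obtain ⟨q, hq⟩ := h
  have hq2 : (((k : ℝ) * tau n i0 R M * n i0 : ℝ) : ℂ) = q * (2 * Real.pi) := by
    have h3 : (((k : ℝ) * tau n i0 R M * n i0 : ℝ) : ℂ) * Complex.I =
        (q * (2 * Real.pi)) * Complex.I := by
      rw [hq]; ring
    exact mul_right_cancel₀ Complex.I_ne_zero h3
  have hq3 : (k : ℝ) * tau n i0 R M * n i0 = q * (2 * Real.pi) := by exact_mod_cast hq2
  have hpi := Real.pi_gt_three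
  have hτ := tau_pos n i0 R M
  have hkR : |(k : ℝ)| ≤ M := by exact_mod_cast hkM
  have hb : |(k : ℝ) * tau n i0 R M * n i0| ≤ 1 / 2 := by
    rw [abs_mul, abs_mul, abs_of_pos hτ]
    have h1 := abs_nonneg (n i0)
    have h2 : (0 : ℝ) ≤ M := Nat.cast_nonneg M
    have h3 : (0 : ℝ) ≤ R := Nat.cast_nonneg R
    calc |(k : ℝ)| * tau n i0 R M * |n i0| ≤ M * tau n i0 R M * |n i0| := by gcongr
      _ ≤ 1 / 2 := by
        unfold tau
        rw [mul_one_div, div_mul_eq_mul_div, div_le_div_iff₀ (by positivity) (by norm_num)]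
        have h4 : (M : ℝ) * |n i0| ≤ (M + 1) * (|n i0| + 1) := by nlinarith
        have h5 : (M + 1 : ℝ) * (|n i0| + 1) ≤ (M + 1) * (|n i0| + 1) * (R + 1) := by
          have : (0 : ℝ) ≤ (M + 1) * (|n i0| + 1) := by positivity
          nlinarith
        nlinarith
  have hne : (k : ℝ) * tau n i0 R M * n i0 ≠ 0 := by
    have : (k : ℝ) ≠ 0 := by exact_mod_cast hk
    exact mul_ne_zero (mul_ne_zero this hτ.ne') hn
  have hq0 : q ≠ 0 := by
    rintro rfl
    apply hne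
    rw [hq3]
    simp
  have hq1 : (1 : ℝ) ≤ |(q : ℝ)| := by exact_mod_cast Int.one_le_abs hq0
  rw [hq3, abs_mul, abs_of_pos (by linarith : (0 : ℝ) < 2 * Real.pi)] at hb
  nlinarith

/-- the time fraction in slabs tends to zero, uniformly in the position of the slab -/
theorem slabs (W : UG (L2 (Site d))) (ψ : L2 (Site d)) (n : Fin d → ℝ) (i0 : Fin d) (R : ℕ)
    (H : ∀ (M : ℕ) (k : ℤ), k ≠ 0 → |k| ≤ M →
      Van W ψ (fun i => (k : ℝ) * tau n i0 R M * n i)) (ε : ℝ) (hε : 0 < ε) :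
    ∀ᶠ T : ℝ in atTop, ∀ c : ℝ, T⁻¹ * ∫ s in (0 : ℝ)..T, mass (slab n c R) (W.U s ψ) ≤ ε := by
  obtain ⟨M0, hM0⟩ := exists_nat_gt (2 * ‖ψ‖ ^ 2 / ε)
  set M : ℕ := M0 + 1 with hMd
  have hM : 0 < M := Nat.succ_pos _
  have hMR : (0 : ℝ) < M := by exact_mod_cast hM
  have hMM : 2 * ‖ψ‖ ^ 2 / ε < M := hM0.trans (by rw [hMd]; push_cast; linarith)
  set τ : ℝ := tau n i0 R M with hτ
  have h1 : ∀ j j' : ℕ, j ∈ Finset.range M → j' ∈ Finset.range M →
      Tendsto (fun T : ℝ => ‖(T : ℂ)⁻¹ * ∫ s in (0 : ℝ)..T, ⟪W.U s ψ,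
          cmul (tch (fun i => ts n τ j' i - ts n τ j i)) (chr_tch _).nrm (W.U s ψ)⟫_ℂ‖) atTop
        (𝓝 (if j = j' then ‖ψ‖ ^ 2 else 0)) := by
    intro j j' hj hj'
    by_cases hjj : j = j'
    · rw [if_pos hjj]
      refine Tendsto.congr' ?_ tendsto_const_nhds
      filter_upwards [eventually_gt_atTop (0 : ℝ)] with T hT
      subst hjj
      have e1 : ∀ s : ℝ, ⟪W.U s ψ, cmul (tch (fun i => ts n τ j i - ts n τ j i))
          (chr_tch _).nrm (W.U s ψ)⟫_ℂ = ((‖ψ‖ ^ 2 : ℝ) : ℂ) := by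
        intro s
        have e2 : cmul (tch (fun i => ts n τ j i - ts n τ j i)) (chr_tch _).nrm (W.U s ψ) =
            W.U s ψ := by
          ext x
          rw [cmul_apply]
          have e3 : (fun i => ts n τ j i - ts n τ j i) = fun _ => (0 : ℝ) := by
            funext i
            exact sub_self _
          rw [e3, tch_zero_fun, one_mul]
        rw [e2, inner_UU, inner_self_eq_norm_sq_to_K]
        push_cast
        rfl
      simp_rw [e1]
      rw [intervalIntegral.integral_const, sub_zero, Complex.real_smul, ← mul_assoc,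
        inv_mul_cancel₀ (by exact_mod_cast hT.ne'), one_mul, Complex.norm_real,
        Real.norm_of_nonneg (sq_nonneg _)]
    · rw [if_neg hjj]
      have hk : ((j' : ℤ) - j) ≠ 0 := by omega
      have hkM : |((j' : ℤ) - j)| ≤ M := by
        rw [Finset.mem_range] at hj hj'
        rw [abs_le]
        omega
      have h2 := avg_inner W _ (H M ((j' : ℤ) - j) hk hkM) ψ
      rw [inner_zero_right] at h2
      have h3 := h2.norm
      rw [norm_zero] at h3
      have e : (fun i => ts n τ j' i - ts n τ j i) =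
          fun i => (((j' : ℤ) - j : ℤ) : ℝ) * tau n i0 R M * n i := by
        funext i
        unfold ts
        push_cast
        ring
      simp_rw [e]
      exact h3
  have h2 : Tendsto (fun T : ℝ => (2 / (M : ℝ) ^ 2) * ∑ j ∈ Finset.range M,
      ∑ j' ∈ Finset.range M, ‖(T : ℂ)⁻¹ * ∫ s in (0 : ℝ)..T, ⟪W.U s ψ,
          cmul (tch (fun i => ts n τ j' i - ts n τ j i)) (chr_tch _).nrm (W.U s ψ)⟫_ℂ‖) atTop
      (𝓝 ((2 / (M : ℝ) ^ 2) * ∑ j ∈ Finset.range M, ∑ j' ∈ Finset.range M,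
        (if j = j' then ‖ψ‖ ^ 2 else 0))) :=
    (tendsto_finsetSum _ fun j hj => tendsto_finsetSum _ fun j' hj' => h1 j j' hj hj').const_mul _
  have e1 : (2 / (M : ℝ) ^ 2) * ∑ j ∈ Finset.range M, ∑ j' ∈ Finset.range M,
        (if j = j' then ‖ψ‖ ^ 2 else 0) = 2 * ‖ψ‖ ^ 2 / M := by
    have : ∀ j ∈ Finset.range M, ∑ j' ∈ Finset.range M,
        (if j = j' then ‖ψ‖ ^ 2 else 0) = ‖ψ‖ ^ 2 := by
      intro j hj
      rw [Finset.sum_ite_eq]
      rw [if_pos hj]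
    rw [Finset.sum_congr rfl this, Finset.sum_const, Finset.card_range, nsmul_eq_mul]
    field_simp
  rw [e1] at h2
  have h3 : 2 * ‖ψ‖ ^ 2 / M < ε := by
    rw [div_lt_iff₀ hMR]
    rw [div_lt_iff₀ hε] at hMM
    linarith
  filter_upwards [h2.eventually (gt_mem_nhds h3), eventually_gt_atTop (0 : ℝ)] with T hT1 hT2 c
  exact (slab_avg W ψ n τ c R M hM (tau_small n i0 R M) T hT2).trans hT1.le

end Pool.Agent.H39.AC
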